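import Pool.Agent.VINO.EDefs
import Pool.Agent.VINO.KDefs

set_option autoImplicit false

/-!
# PJN: pairwise independent joinings and Furstenberg systems along `⌊n ^ (log n) ^ c⌋`

MP_823c05_an, fourth hand-in. `T` ergodic with the PID property (every pairwise independent self-joining is
independent): for bounded measurable `f` the empirical measures of the sequences `f (T^(a n) x)` converge in
probability to a product measure, so at almost every `x` this Bernoulli system is a Furstenberg system.
-/

namespace Pool.Agent.PJN

open MeasureTheory Filter Topology Pool.Agent.VINO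

/-- **The PID property**: every pairwise independent self-joining of finite order of `(X, μ, T)` is the
product joining. -/
def PID {X : Type} [MeasurableSpace X] (μ : Measure X) (T : X → X) : Prop :=
  ∀ (ι : Type) [Fintype ι] (L : Measure (ι → X)), IsProbabilityMeasure L →
    L.map (fun x i => T (x i)) = L → (∀ i, L.map (fun x => x i) = μ) →
    (∀ i j, i ≠ j → L.map (fun x => (x i, x j)) = μ.prod μ) → L = Measure.pi fun _ => μ

/-- the average over `n, m ≤ N + 1` of the laws of
`(T^(a n) x, …, T^(a (n + r)) x, T^(a m) x, …, T^(a (m + r)) x)` -/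
noncomputable def lam (c : ℝ) {X : Type} [MeasurableSpace X] (μ : Measure X) (T : X → X) (r N : ℕ) :
    Measure (Fin (r + 1) ⊕ Fin (r + 1) → X) :=
  (((N + 1 : ℕ) : ENNReal)⁻¹ * ((N + 1 : ℕ) : ENNReal)⁻¹) •
    ∑ n ∈ Finset.Icc 1 (N + 1), ∑ m ∈ Finset.Icc 1 (N + 1),
      μ.map fun x => Sum.elim (fun j : Fin (r + 1) => T^[a c (n + j.1)] x)
        (fun j : Fin (r + 1) => T^[a c (m + j.1)] x)

end Pool.Agent.PJN
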