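import Pool.Agent.PJN.Defs

set_option autoImplicit false

/-!
# PJN/Defs2: the product formula in mean square
-/

namespace Pool.Agent.PJN

open MeasureTheory Filter Topology Pool.Agent.VINO

/-- The averages of the products along `a c n` converge in mean square to the product of the integrals. -/
def L2C (c : ℝ) {X : Type*} [MeasurableSpace X] (μ : Measure X) (T : X → X) {r : ℕ}
    (f : Fin (r + 1) → X → ℂ) : Prop :=
  Tendsto (fun N => ∫ x, ‖av N (fun n => ∏ j, f j (T^[a c (n + j.1)] x)) -
    ∏ j, ∫ y, f j y ∂μ‖ ^ 2 ∂μ) atTop (𝓝 0)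

end Pool.Agent.PJN
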