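import Pool.Agent.PJN.Defs2

set_option autoImplicit false

/-!
# PJN/ExtA: extension from a dense class

PROOF (compare `VINO/ELin`, `VINO/EMain`: there with the maximal inequality, here much simpler). Fix a slot `j` and bounded functions in
the other slots. The set of the `Bdd` functions `h` with `L2C c μ T (Function.update f j h)` is closed under `+` and scalars (both `av ∏` and
`∏ ∫` are linear in the slot; `‖x + y‖² ≤ 2 ‖x‖² + 2 ‖y‖²`) and under mean square approximation: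
`∫ ‖av ∏ (.. g at j ..)‖² ≤ C² ∫ ‖g‖²` (`‖av N u‖² ≤ av N ‖u‖²`, the other factors are bounded, `T^[k]` preserves `μ`), `‖∏ ∫‖² ≤ C² ∫ ‖g‖²`.
So it contains all `Bdd` functions once it contains `V` (`hd`, `Submodule.span_induction`). Now replace the slots one by one (induction on a finset of slots
in which the functions are `Bdd`, the others in `V`).
-/

namespace Pool.Agent.PJN

open MeasureTheory Filter Topology Pool.Agent.VINO

private theorem ea_prod {ι X : Type*} [Fintype ι] [DecidableEq ι] (F : ι → X → ℂ) (j : ι)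
    (h : X → ℂ) (y : ι → X) :
    ∏ i, Function.update F j h i (y i) = h (y j) * ∏ i ∈ Finset.univ.erase j, F i (y i) := by
  rw [← Finset.mul_prod_erase Finset.univ _ (Finset.mem_univ j), Function.update_self]
  congr 1
  refine Finset.prod_congr rfl fun i hi => ?_
  rw [Function.update_of_ne (Finset.ne_of_mem_erase hi)]

private theorem ea_int {ι X : Type*} [Fintype ι] [DecidableEq ι] [MeasurableSpace X]
    (μ : Measure X) (F : ι → X → ℂ) (j : ι) (h : X → ℂ) :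
    ∏ i, ∫ y, Function.update F j h i y ∂μ =
      (∫ y, h y ∂μ) * ∏ i ∈ Finset.univ.erase j, ∫ y, F i y ∂μ := by
  rw [← Finset.mul_prod_erase Finset.univ _ (Finset.mem_univ j), Function.update_self]
  congr 1
  refine Finset.prod_congr rfl fun i hi => ?_
  rw [Function.update_of_ne (Finset.ne_of_mem_erase hi)]

private theorem ea_bint {X : Type*} [MeasurableSpace X] {μ : Measure X} [IsProbabilityMeasure μ]
    {f : X → ℂ} (hf : Bdd f) : Integrable f μ := by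
  obtain ⟨h1, M, hM⟩ := hf
  exact Integrable.of_bound h1.aestronglyMeasurable M (Eventually.of_forall hM)

private theorem ea_bsq {X : Type*} [MeasurableSpace X] {μ : Measure X} [IsProbabilityMeasure μ]
    {f : X → ℂ} (hf : Bdd f) : Integrable (fun x => ‖f x‖ ^ 2) μ := by
  obtain ⟨h1, M, hM⟩ := hf
  refine Integrable.of_bound (h1.norm.pow_const 2).aestronglyMeasurable (M ^ 2)
    (Eventually.of_forall fun x => ?_)
  rw [Real.norm_of_nonneg (by positivity)]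
  exact pow_le_pow_left₀ (norm_nonneg _) (hM x) 2

private theorem ea_mul {X : Type*} [MeasurableSpace X] {f g : X → ℂ} (hf : Bdd f) (hg : Bdd g) :
    Bdd fun x => f x * g x := by
  obtain ⟨h1, M, hM⟩ := hf
  obtain ⟨h2, M', hM'⟩ := hg
  refine ⟨h1.mul h2, M * M', fun x => ?_⟩
  rw [norm_mul]
  exact mul_le_mul (hM x) (hM' x) (norm_nonneg _) ((norm_nonneg _).trans (hM x))

private theorem ea_add {X : Type*} [MeasurableSpace X] {f g : X → ℂ} (hf : Bdd f) (hg : Bdd g) :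
    Bdd fun x => f x + g x := by
  obtain ⟨h1, M, hM⟩ := hf
  obtain ⟨h2, M', hM'⟩ := hg
  exact ⟨h1.add h2, M + M', fun x => (norm_add_le _ _).trans (add_le_add (hM x) (hM' x))⟩

private theorem ea_const {X : Type*} [MeasurableSpace X] (z : ℂ) : Bdd fun _ : X => z :=
  ⟨measurable_const, ‖z‖, fun _ => le_rfl⟩

private theorem ea_comp {X : Type*} [MeasurableSpace X] {f : X → ℂ} (hf : Bdd f) {S : X → X}
    (hS : Measurable S) : Bdd fun x => f (S x) := by
  obtain ⟨h1, M, hM⟩ := hf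
  exact ⟨h1.comp hS, M, fun x => hM _⟩

private theorem ea_bprod {X ι : Type*} [MeasurableSpace X] (s : Finset ι) {f : ι → X → ℂ}
    (hf : ∀ i, Bdd (f i)) : Bdd fun x => ∏ i ∈ s, f i x := by
  classical
  induction s using Finset.induction_on with
  | empty =>
    simp only [Finset.prod_empty]
    exact ea_const 1
  | insert i s hi ih =>
    have h := ea_mul (hf i) ih
    have e : (fun x => ∏ j ∈ insert i s, f j x) = fun x => f i x * ∏ j ∈ s, f j x := by
      funext x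
      rw [Finset.prod_insert hi]
    rw [e]
    exact h

private theorem ea_bsum {X ι : Type*} [MeasurableSpace X] (s : Finset ι) {f : ι → X → ℂ}
    (hf : ∀ i, Bdd (f i)) : Bdd fun x => ∑ i ∈ s, f i x := by
  classical
  induction s using Finset.induction_on with
  | empty =>
    simp only [Finset.sum_empty]
    exact ea_const 0
  | insert i s hi ih =>
    have h := ea_add (hf i) ih
    have e : (fun x => ∑ j ∈ insert i s, f j x) = fun x => f i x + ∑ j ∈ s, f j x := by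
      funext x
      rw [Finset.sum_insert hi]
    rw [e]
    exact h

/-- the difference for the function `g` in the slot `j` -/
private noncomputable def dd (c : ℝ) {X : Type*} [MeasurableSpace X] (μ : Measure X) (T : X → X)
    {r : ℕ} (f : Fin (r + 1) → X → ℂ) (j : Fin (r + 1)) (N : ℕ) (g : X → ℂ) (x : X) : ℂ :=
  av N (fun n => g (T^[a c (n + j.1)] x) *
    ∏ i ∈ Finset.univ.erase j, f i (T^[a c (n + i.1)] x)) -
    (∫ y, g y ∂μ) * ∏ i ∈ Finset.univ.erase j, ∫ y, f i y ∂μ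

private theorem dd_upd {c : ℝ} {X : Type*} [MeasurableSpace X] {μ : Measure X} {T : X → X}
    {r : ℕ} (f : Fin (r + 1) → X → ℂ) (j : Fin (r + 1)) (g : X → ℂ) :
    L2C c μ T (Function.update f j g) ↔
      Tendsto (fun N => ∫ x, ‖dd c μ T f j N g x‖ ^ 2 ∂μ) atTop (𝓝 0) := by
  unfold L2C dd
  rw [ea_int]
  have h : ∀ (x : X) (n : ℕ), ∏ i, Function.update f j g i (T^[a c (n + i.1)] x) =
      g (T^[a c (n + j.1)] x) * ∏ i ∈ Finset.univ.erase j, f i (T^[a c (n + i.1)] x) :=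
    fun x n => ea_prod f j g fun i => T^[a c (n + i.1)] x
  simp only [h]

private theorem dd_add {c : ℝ} {X : Type*} [MeasurableSpace X] {μ : Measure X}
    [IsProbabilityMeasure μ] {T : X → X} {r : ℕ} (f : Fin (r + 1) → X → ℂ) (j : Fin (r + 1))
    (N : ℕ) {g g' : X → ℂ} (hg : Bdd g) (hg' : Bdd g') (x : X) :
    dd c μ T f j N (fun y => g y + g' y) x = dd c μ T f j N g x + dd c μ T f j N g' x := by
  unfold dd av
  rw [integral_add (ea_bint hg) (ea_bint hg')]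
  simp only [add_mul, Finset.sum_add_distrib, mul_add]
  ring

private theorem dd_smul {c : ℝ} {X : Type*} [MeasurableSpace X] {μ : Measure X}
    {T : X → X} {r : ℕ} (f : Fin (r + 1) → X → ℂ) (j : Fin (r + 1))
    (N : ℕ) (z : ℂ) (g : X → ℂ) (x : X) :
    dd c μ T f j N (fun y => z * g y) x = z * dd c μ T f j N g x := by
  unfold dd av
  rw [integral_const_mul]
  simp only [mul_assoc, ← Finset.mul_sum, mul_sub]
  ring

private theorem dd_bdd {c : ℝ} {X : Type*} [MeasurableSpace X] {μ : Measure X}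
    [IsProbabilityMeasure μ] {T : X → X} (hT : MeasurePreserving T μ μ) {r : ℕ}
    {f : Fin (r + 1) → X → ℂ} (hf : ∀ j, Bdd (f j)) (j : Fin (r + 1))
    (N : ℕ) {g : X → ℂ} (hg : Bdd g) : Bdd (dd c μ T f j N g) := by
  have h1 : Bdd fun x => ((N : ℂ)⁻¹ * ∑ n ∈ Finset.Icc 1 N, g (T^[a c (n + j.1)] x) *
      ∏ i ∈ Finset.univ.erase j, f i (T^[a c (n + i.1)] x)) +
      -((∫ y, g y ∂μ) * ∏ i ∈ Finset.univ.erase j, ∫ y, f i y ∂μ) := by
    refine ea_add (ea_mul (ea_const _) (ea_bsum _ fun n => ea_mul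
      (ea_comp hg (hT.measurable.iterate _)) (ea_bprod _ fun i =>
        ea_comp (hf i) (hT.measurable.iterate _)))) (ea_const _)
  have e : dd c μ T f j N g = fun x => ((N : ℂ)⁻¹ * ∑ n ∈ Finset.Icc 1 N,
      g (T^[a c (n + j.1)] x) * ∏ i ∈ Finset.univ.erase j, f i (T^[a c (n + i.1)] x)) +
      -((∫ y, g y ∂μ) * ∏ i ∈ Finset.univ.erase j, ∫ y, f i y ∂μ) := by
    funext x
    unfold dd av
    ring
  rw [e]
  exact h1

private theorem ea_jen {X : Type*} [MeasurableSpace X] {μ : Measure X} [IsProbabilityMeasure μ]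
    {g : X → ℂ} (hg : Bdd g) : ‖∫ y, g y ∂μ‖ ^ 2 ≤ ∫ y, ‖g y‖ ^ 2 ∂μ := by
  have h1 : ‖∫ y, g y ∂μ‖ ≤ ∫ y, ‖g y‖ ∂μ := norm_integral_le_integral_norm _
  set m : ℝ := ∫ y, ‖g y‖ ∂μ with hm
  have h2 : ‖∫ y, g y ∂μ‖ ^ 2 ≤ m ^ 2 := pow_le_pow_left₀ (norm_nonneg _) h1 2
  have h3 : 0 ≤ ∫ y, (‖g y‖ - m) ^ 2 ∂μ := integral_nonneg fun y => by positivity
  have hi1 : Integrable (fun y => ‖g y‖) μ := (ea_bint hg).norm
  have hi2 := ea_bsq (μ := μ) hg
  have h4 : ∫ y, (‖g y‖ - m) ^ 2 ∂μ = (∫ y, ‖g y‖ ^ 2 ∂μ) - m ^ 2 := by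
    have e : (fun y => (‖g y‖ - m) ^ 2) = fun y => (‖g y‖ ^ 2 - (2 * m) * ‖g y‖) + m ^ 2 := by
      funext y
      ring
    have hi3 : Integrable (fun y => ‖g y‖ ^ 2 - (2 * m) * ‖g y‖) μ :=
      hi2.sub (hi1.const_mul (2 * m))
    have hi4 : Integrable (fun y => (2 * m) * ‖g y‖) μ := hi1.const_mul (2 * m)
    rw [e, integral_add hi3 (integrable_const _), integral_sub hi2 hi4, integral_const_mul, ← hm,
      integral_const]
    simp only [probReal_univ, smul_eq_mul]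
    ring
  linarith

private theorem ea_avsq (N : ℕ) (u : ℕ → ℂ) :
    ‖av N u‖ ^ 2 ≤ (N : ℝ)⁻¹ * ∑ n ∈ Finset.Icc 1 N, ‖u n‖ ^ 2 := by
  rcases Nat.eq_zero_or_pos N with h0 | h0
  · subst h0
    simp [av]
  have hN : (0 : ℝ) < N := by exact_mod_cast h0
  have h1 : ‖av N u‖ ≤ (N : ℝ)⁻¹ * ∑ n ∈ Finset.Icc 1 N, ‖u n‖ := by
    unfold av
    rw [norm_mul, norm_inv, Complex.norm_natCast]
    exact mul_le_mul_of_nonneg_left (norm_sum_le _ _) (by positivity)
  have h2 : (∑ n ∈ Finset.Icc 1 N, ‖u n‖) ^ 2 ≤ (N : ℝ) * ∑ n ∈ Finset.Icc 1 N, ‖u n‖ ^ 2 := by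
    have h := sq_sum_le_card_mul_sum_sq (s := Finset.Icc 1 N) (f := fun n => ‖u n‖)
    simpa using h
  calc ‖av N u‖ ^ 2 ≤ ((N : ℝ)⁻¹ * ∑ n ∈ Finset.Icc 1 N, ‖u n‖) ^ 2 :=
        pow_le_pow_left₀ (norm_nonneg _) h1 2
    _ = (N : ℝ)⁻¹ ^ 2 * (∑ n ∈ Finset.Icc 1 N, ‖u n‖) ^ 2 := by ring
    _ ≤ (N : ℝ)⁻¹ ^ 2 * ((N : ℝ) * ∑ n ∈ Finset.Icc 1 N, ‖u n‖ ^ 2) :=
        mul_le_mul_of_nonneg_left h2 (by positivity)
    _ = (N : ℝ)⁻¹ * ∑ n ∈ Finset.Icc 1 N, ‖u n‖ ^ 2 := by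
        field_simp

private theorem ea_unif {X ι : Type*} [MeasurableSpace X] (s : Finset ι) {f : ι → X → ℂ}
    (hf : ∀ i, Bdd (f i)) : ∃ C : ℝ, 0 ≤ C ∧ ∀ y : ι → X, ‖∏ i ∈ s, f i (y i)‖ ≤ C := by
  choose M hM using fun i => (hf i).2
  refine ⟨∏ i ∈ s, |M i|, Finset.prod_nonneg fun i _ => abs_nonneg _, fun y => ?_⟩
  rw [norm_prod]
  exact Finset.prod_le_prod (fun i _ => norm_nonneg _) fun i _ => (hM i _).trans (le_abs_self _)

private theorem dd_ms {c : ℝ} {X : Type*} [MeasurableSpace X] {μ : Measure X}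
    [IsProbabilityMeasure μ] {T : X → X} (hT : MeasurePreserving T μ μ) {r : ℕ}
    {f : Fin (r + 1) → X → ℂ} (hf : ∀ j, Bdd (f j)) (j : Fin (r + 1)) :
    ∃ K : ℝ, 0 ≤ K ∧ ∀ g : X → ℂ, Bdd g → ∀ N : ℕ,
      ∫ x, ‖dd c μ T f j N g x‖ ^ 2 ∂μ ≤ K * ∫ x, ‖g x‖ ^ 2 ∂μ := by
  obtain ⟨C, hC0, hC⟩ := ea_unif (Finset.univ.erase j) hf
  set w : ℂ := ∏ i ∈ Finset.univ.erase j, ∫ y, f i y ∂μ with hw
  refine ⟨2 * C ^ 2 + 2 * ‖w‖ ^ 2, by positivity, fun g hg N => ?_⟩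
  have hG0 : 0 ≤ ∫ x, ‖g x‖ ^ 2 ∂μ := integral_nonneg fun x => by positivity
  have hk : ∀ k : ℕ, ∫ x, ‖g (T^[k] x)‖ ^ 2 ∂μ = ∫ x, ‖g x‖ ^ 2 ∂μ := by
    intro k
    have h1 := (hT.iterate k).map_eq
    have h2 : ∫ x, ‖g x‖ ^ 2 ∂(μ.map T^[k]) = ∫ x, ‖g (T^[k] x)‖ ^ 2 ∂μ :=
      integral_map (hT.iterate k).measurable.aemeasurable
        (hg.1.norm.pow_const 2).aestronglyMeasurable
    rw [← h2, h1]
  have hik : ∀ k : ℕ, Integrable (fun x => ‖g (T^[k] x)‖ ^ 2) μ := fun k =>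
    ea_bsq (ea_comp hg (hT.measurable.iterate _))
  have hb : ∀ x, ‖dd c μ T f j N g x‖ ^ 2 ≤
      2 * ((N : ℝ)⁻¹ * ∑ n ∈ Finset.Icc 1 N, C ^ 2 * ‖g (T^[a c (n + j.1)] x)‖ ^ 2) +
        2 * ((∫ y, ‖g y‖ ^ 2 ∂μ) * ‖w‖ ^ 2) := by
    intro x
    set A : ℂ := av N (fun n => g (T^[a c (n + j.1)] x) *
      ∏ i ∈ Finset.univ.erase j, f i (T^[a c (n + i.1)] x)) with hA
    set B : ℂ := (∫ y, g y ∂μ) * w with hB
    have h1 : ‖dd c μ T f j N g x‖ ≤ ‖A‖ + ‖B‖ := by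
      have e : dd c μ T f j N g x = A - B := rfl
      rw [e]
      exact norm_sub_le _ _
    have h2 : ‖dd c μ T f j N g x‖ ^ 2 ≤ 2 * ‖A‖ ^ 2 + 2 * ‖B‖ ^ 2 := by
      have h := pow_le_pow_left₀ (norm_nonneg _) h1 2
      nlinarith [sq_nonneg (‖A‖ - ‖B‖)]
    have h3 : ‖A‖ ^ 2 ≤ (N : ℝ)⁻¹ * ∑ n ∈ Finset.Icc 1 N, C ^ 2 *
        ‖g (T^[a c (n + j.1)] x)‖ ^ 2 := by
      refine (ea_avsq N _).trans (mul_le_mul_of_nonneg_left
        (Finset.sum_le_sum fun n _ => ?_) (by positivity))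
      rw [norm_mul, mul_pow, mul_comm]
      exact mul_le_mul_of_nonneg_right (pow_le_pow_left₀ (norm_nonneg _)
        (hC fun i => T^[a c (n + i.1)] x) 2) (by positivity)
    have h4 : ‖B‖ ^ 2 ≤ (∫ y, ‖g y‖ ^ 2 ∂μ) * ‖w‖ ^ 2 := by
      rw [hB, norm_mul, mul_pow]
      exact mul_le_mul_of_nonneg_right (ea_jen hg) (by positivity)
    linarith
  have hi1 : Integrable (fun x => 2 * ((N : ℝ)⁻¹ * ∑ n ∈ Finset.Icc 1 N, C ^ 2 *
      ‖g (T^[a c (n + j.1)] x)‖ ^ 2)) μ :=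
    ((integrable_finsetSum _ fun n _ => (hik _).const_mul _).const_mul _).const_mul _
  calc ∫ x, ‖dd c μ T f j N g x‖ ^ 2 ∂μ ≤ ∫ x, (2 * ((N : ℝ)⁻¹ * ∑ n ∈ Finset.Icc 1 N, C ^ 2 *
        ‖g (T^[a c (n + j.1)] x)‖ ^ 2) + 2 * ((∫ y, ‖g y‖ ^ 2 ∂μ) * ‖w‖ ^ 2)) ∂μ :=
        integral_mono (ea_bsq (dd_bdd hT hf j N hg)) (hi1.add (integrable_const _)) hb
    _ = 2 * ((N : ℝ)⁻¹ * ∑ n ∈ Finset.Icc 1 N, C ^ 2 * ∫ x, ‖g x‖ ^ 2 ∂μ) +
        2 * ((∫ y, ‖g y‖ ^ 2 ∂μ) * ‖w‖ ^ 2) := by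
        rw [integral_add hi1 (integrable_const _), integral_const_mul, integral_const_mul,
          integral_finsetSum _ fun n _ => (hik _).const_mul _, integral_const]
        simp only [integral_const_mul, hk, probReal_univ, one_smul]
    _ ≤ (2 * C ^ 2 + 2 * ‖w‖ ^ 2) * ∫ x, ‖g x‖ ^ 2 ∂μ := by
        have h5 : (N : ℝ)⁻¹ * ∑ n ∈ Finset.Icc 1 N, C ^ 2 * ∫ x, ‖g x‖ ^ 2 ∂μ ≤
            C ^ 2 * ∫ x, ‖g x‖ ^ 2 ∂μ := by
          rw [Finset.sum_const, Nat.card_Icc, Nat.add_sub_cancel, nsmul_eq_mul]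
          rcases Nat.eq_zero_or_pos N with h0 | h0
          · subst h0
            simp only [Nat.cast_zero, inv_zero, zero_mul]
            positivity
          · have hN : (0 : ℝ) < N := by exact_mod_cast h0
            rw [← mul_assoc, inv_mul_cancel₀ hN.ne', one_mul]
        nlinarith

private theorem ea_two {X : Type*} [MeasurableSpace X] {μ : Measure X} [IsProbabilityMeasure μ]
    {f g : X → ℂ} (hf : Bdd f) (hg : Bdd g) :
    ∫ x, ‖f x + g x‖ ^ 2 ∂μ ≤ 2 * ∫ x, ‖f x‖ ^ 2 ∂μ + 2 * ∫ x, ‖g x‖ ^ 2 ∂μ := by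
  rw [← integral_const_mul, ← integral_const_mul,
    ← integral_add ((ea_bsq hf).const_mul _) ((ea_bsq hg).const_mul _)]
  refine integral_mono (ea_bsq (ea_add hf hg))
    (((ea_bsq hf).const_mul _).add ((ea_bsq hg).const_mul _)) fun x => ?_
  have h := pow_le_pow_left₀ (norm_nonneg _) (norm_add_le (f x) (g x)) 2
  show ‖f x + g x‖ ^ 2 ≤ 2 * ‖f x‖ ^ 2 + 2 * ‖g x‖ ^ 2
  nlinarith [sq_nonneg (‖f x‖ - ‖g x‖)]

private theorem ea_slot {c : ℝ} {X : Type*} [MeasurableSpace X] {μ : Measure X}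
    [IsProbabilityMeasure μ] {T : X → X} (hT : MeasurePreserving T μ μ) (V : Set (X → ℂ))
    (hV : ∀ h ∈ V, Bdd h)
    (hd : ∀ f : X → ℂ, Bdd f → ∀ ε : ℝ, 0 < ε →
      ∃ h ∈ Submodule.span ℂ V, ∫ x, ‖f x - h x‖ ^ 2 ∂μ ≤ ε)
    {r : ℕ} {f : Fin (r + 1) → X → ℂ} (hf : ∀ j, Bdd (f j)) (j : Fin (r + 1))
    (hP : ∀ v ∈ V, L2C c μ T (Function.update f j v)) {g : X → ℂ} (hg : Bdd g) :
    L2C c μ T (Function.update f j g) := by
  have hspan : ∀ h ∈ Submodule.span ℂ V, Bdd h ∧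
      Tendsto (fun N => ∫ x, ‖dd c μ T f j N h x‖ ^ 2 ∂μ) atTop (𝓝 0) := by
    intro h hh
    induction hh using Submodule.span_induction with
    | mem v hv => exact ⟨hV v hv, (dd_upd f j v).1 (hP v hv)⟩
    | zero =>
      refine ⟨ea_const 0, ?_⟩
      have e : ∀ (N : ℕ) (x : X), dd c μ T f j N 0 x = 0 := by
        intro N x
        unfold dd av
        simp
      simp only [e]
      simp
    | add u v _ _ hu hv =>
      refine ⟨ea_add hu.1 hv.1, ?_⟩
      have h1 := (hu.2.const_mul 2).add (hv.2.const_mul 2)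
      rw [mul_zero, add_zero] at h1
      refine squeeze_zero (fun N => integral_nonneg fun x => by positivity) (fun N => ?_) h1
      have e : ∀ x, dd c μ T f j N (u + v) x = dd c μ T f j N u x + dd c μ T f j N v x :=
        fun x => dd_add f j N hu.1 hv.1 x
      simp only [e]
      exact ea_two (dd_bdd hT hf j N hu.1) (dd_bdd hT hf j N hv.1)
    | smul z u _ hu =>
      refine ⟨ea_mul (ea_const z) hu.1, ?_⟩
      have h1 := hu.2.const_mul (‖z‖ ^ 2)
      rw [mul_zero] at h1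
      refine h1.congr fun N => ?_
      have e : ∀ x, dd c μ T f j N (z • u) x = z * dd c μ T f j N u x :=
        fun x => dd_smul f j N z u x
      simp only [e, norm_mul, mul_pow]
      rw [integral_const_mul]
  rw [dd_upd]
  obtain ⟨K, hK0, hK⟩ := dd_ms (c := c) hT hf j
  rw [Metric.tendsto_atTop]
  intro ε hε
  obtain ⟨h, hh, hgh⟩ := hd g hg (ε / (4 * (K + 1))) (by positivity)
  obtain ⟨hhb, hhl⟩ := hspan h hh
  have hev := (Metric.tendsto_atTop.1 hhl) (ε / 4) (by positivity)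
  obtain ⟨N₀, hN₀⟩ := hev
  refine ⟨N₀, fun N hN => ?_⟩
  have h1 := hN₀ N hN
  rw [Real.dist_eq, sub_zero, abs_of_nonneg (integral_nonneg fun x => by positivity)] at h1 ⊢
  have hsub : Bdd fun x => g x + (-1 : ℂ) * h x := ea_add hg (ea_mul (ea_const _) hhb)
  have e : ∀ x, dd c μ T f j N g x = dd c μ T f j N h x +
      dd c μ T f j N (fun y => g y + (-1 : ℂ) * h y) x := by
    intro x
    rw [← dd_add f j N hhb hsub x]
    congr 1
    funext y
    ring
  have h2 : ∫ x, ‖dd c μ T f j N g x‖ ^ 2 ∂μ ≤ 2 * ∫ x, ‖dd c μ T f j N h x‖ ^ 2 ∂μ +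
      2 * ∫ x, ‖dd c μ T f j N (fun y => g y + (-1 : ℂ) * h y) x‖ ^ 2 ∂μ := by
    simp only [e]
    exact ea_two (dd_bdd hT hf j N hhb) (dd_bdd hT hf j N hsub)
  have h3 := hK _ hsub N
  have h4 : ∫ x, ‖g x + (-1 : ℂ) * h x‖ ^ 2 ∂μ ≤ ε / (4 * (K + 1)) := by
    refine le_trans (le_of_eq ?_) hgh
    refine integral_congr_ae (Eventually.of_forall fun x => ?_)
    show ‖g x + (-1 : ℂ) * h x‖ ^ 2 = ‖g x - h x‖ ^ 2
    congr 2
    ring
  have h5 : K * ∫ x, ‖g x + (-1 : ℂ) * h x‖ ^ 2 ∂μ ≤ ε / 4 := by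
    calc K * ∫ x, ‖g x + (-1 : ℂ) * h x‖ ^ 2 ∂μ ≤ K * (ε / (4 * (K + 1))) :=
          mul_le_mul_of_nonneg_left h4 hK0
      _ ≤ (K + 1) * (ε / (4 * (K + 1))) :=
          mul_le_mul_of_nonneg_right (by linarith) (by positivity)
      _ = ε / 4 := by
          field_simp
  linarith

theorem ext_l2 {c : ℝ} {X : Type*} [MeasurableSpace X] {μ : Measure X} [IsProbabilityMeasure μ]
    {T : X → X} (hT : MeasurePreserving T μ μ) (V : Set (X → ℂ)) (hne : V.Nonempty)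
    (hV : ∀ h ∈ V, Bdd h)
    (hd : ∀ f : X → ℂ, Bdd f → ∀ ε : ℝ, 0 < ε →
      ∃ h ∈ Submodule.span ℂ V, ∫ x, ‖f x - h x‖ ^ 2 ∂μ ≤ ε)
    (hP : ∀ (r : ℕ) (f : Fin (r + 1) → X → ℂ), (∀ j, f j ∈ V) → L2C c μ T f)
    (r : ℕ) (f : Fin (r + 1) → X → ℂ) (hf : ∀ j, Bdd (f j)) : L2C c μ T f := by
  have key : ∀ (S : Finset (Fin (r + 1))) (f : Fin (r + 1) → X → ℂ), (∀ j, Bdd (f j)) →
      (∀ j, j ∉ S → f j ∈ V) → L2C c μ T f := by
    intro S
    induction S using Finset.induction_on with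
    | empty =>
      intro f _ h
      exact hP r f fun j => h j (Finset.notMem_empty j)
    | insert j S hj ih =>
      intro f hf h
      have h1 : L2C c μ T (Function.update f j (f j)) := by
        refine ea_slot hT V hV hd hf j (fun v hv => ih _ (fun i => ?_) fun i hi => ?_) (hf j)
        · by_cases hij : i = j
          · subst hij
            rw [Function.update_self]
            exact hV v hv
          · rw [Function.update_of_ne hij]
            exact hf i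
        · by_cases hij : i = j
          · subst hij
            rw [Function.update_self]
            exact hv
          · rw [Function.update_of_ne hij]
            refine h i fun hi2 => ?_
            rcases Finset.mem_insert.1 hi2 with h2 | h2
            · exact hij h2
            · exact hi h2
      rwa [Function.update_eq_self] at h1
  exact key Finset.univ f hf fun j hj => absurd (Finset.mem_univ j) hj

end Pool.Agent.PJN
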