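import Pool.Agent.PJN.Defs2

set_option autoImplicit false

/-!
# PJN/ExtF: functions on a factor

PROOF. For almost all `x`, for all `n` and `j`: `f j (T^[n] x) = h j (S^[n] (π x))` (`hc` and `he` hold along the orbit because `T^[k]` preserves
`μ`; compare `VINO.prd_congr`, `VINO.prd_factor`). So the integrand at `x` is the integrand for `h` at `π x`; `hπ`: change of variables
(`MeasurePreserving.integral_comp'` or `integral_map`), all functions are measurable and bounded.
-/

namespace Pool.Agent.PJN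

open MeasureTheory Filter Topology Pool.Agent.VINO

theorem l2_factor {c : ℝ} {X Y : Type*} [MeasurableSpace X] [MeasurableSpace Y] {μ : Measure X}
    [IsProbabilityMeasure μ] {ν : Measure Y} [IsProbabilityMeasure ν] {T : X → X} {S : Y → Y}
    (hT : MeasurePreserving T μ μ) (hS : MeasurePreserving S ν ν) {π : X → Y}
    (hπ : MeasurePreserving π μ ν) (hc : ∀ᵐ x ∂μ, π (T x) = S (π x)) {r : ℕ}
    (f : Fin (r + 1) → X → ℂ) (h : Fin (r + 1) → Y → ℂ) (hf : ∀ j, Bdd (f j)) (hh : ∀ j, Bdd (h j))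
    (he : ∀ j, ∀ᵐ x ∂μ, f j x = h j (π x)) (H : L2C c ν S h) : L2C c μ T f := by
  have h1 : ∀ᵐ x ∂μ, ∀ n : ℕ, π (T (T^[n] x)) = S (π (T^[n] x)) :=
    ae_all_iff.2 fun n => (hT.iterate n).quasiMeasurePreserving.ae hc
  have h2 : ∀ᵐ x ∂μ, ∀ j, ∀ n : ℕ, f j (T^[n] x) = h j (π (T^[n] x)) :=
    ae_all_iff.2 fun j => ae_all_iff.2 fun n => (hT.iterate n).quasiMeasurePreserving.ae (he j)
  have h3 : ∀ᵐ x ∂μ, ∀ j, ∀ n : ℕ, f j (T^[n] x) = h j (S^[n] (π x)) := by
    filter_upwards [h1, h2] with x hx hx2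
    have h4 : ∀ n : ℕ, π (T^[n] x) = S^[n] (π x) := by
      intro n
      induction n with
      | zero => rfl
      | succ n ih => rw [Function.iterate_succ_apply', Function.iterate_succ_apply', hx n, ih]
    intro j n
    rw [hx2 j n, h4]
  have hint : ∀ j, ∫ x, f j x ∂μ = ∫ y, h j y ∂ν := by
    intro j
    rw [integral_congr_ae (he j), ← hπ.map_eq,
      integral_map hπ.measurable.aemeasurable (hh j).1.aestronglyMeasurable]
  unfold L2C at H ⊢
  refine H.congr fun N => ?_
  have hG : Measurable fun y => ‖av N (fun n => ∏ j, h j (S^[a c (n + j.1)] y)) -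
      ∏ j, ∫ y, h j y ∂ν‖ ^ 2 := by
    have hav : Measurable fun y => av N (fun n => ∏ j, h j (S^[a c (n + j.1)] y)) := by
      unfold av
      exact (Finset.measurable_sum _ fun n _ => Finset.measurable_prod _ fun j _ =>
        (hh j).1.comp (hS.measurable.iterate _)).const_mul _
    exact ((hav.sub_const _).norm).pow_const 2
  have h5 := integral_map (μ := μ) hπ.measurable.aemeasurable (f := fun y =>
    ‖av N (fun n => ∏ j, h j (S^[a c (n + j.1)] y)) - ∏ j, ∫ y, h j y ∂ν‖ ^ 2)
    hG.aestronglyMeasurable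
  rw [hπ.map_eq] at h5
  rw [h5]
  refine integral_congr_ae ?_
  filter_upwards [h3] with x hx
  simp only [hx, hint]

end Pool.Agent.PJN
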