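import Pool.Agent.PJN.Defs2
import Pool.Agent.VINO.KAvg

set_option autoImplicit false

/-!
# PJN/ExtK: products with a function orthogonal to the tail

`VINO.kavg` and dominated convergence.
-/

namespace Pool.Agent.PJN

open MeasureTheory Filter Topology Pool.Agent.VINO

private theorem ek_int {X : Type*} {𝒜 : MeasurableSpace X} [m : MeasurableSpace X] {μ : Measure X}
    [IsProbabilityMeasure μ] {T : X → X} (hT : MeasurePreserving T μ μ) {f : X → ℂ} {k p : ℕ}
    (h : TypK T 𝒜 μ k p f) : ∫ x, f x ∂μ = 0 := by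
  obtain ⟨hb, -, ho⟩ := h
  have h1 := ho (fun _ => 1) (@measurable_const _ _ _ (𝒜.comap T^[p]) 1) ⟨1, fun x => by simp⟩
  simp only [mul_one] at h1
  have h2 := (hT.iterate k).map_eq
  calc ∫ x, f x ∂μ = ∫ x, f x ∂(μ.map T^[k]) := by rw [h2]
    _ = ∫ x, f (T^[k] x) ∂μ := integral_map (hT.iterate k).measurable.aemeasurable
        (by rw [h2]; exact hb.1.aestronglyMeasurable)
    _ = 0 := h1

theorem l2_typK {c : ℝ} (hc0 : 0 < c) (hc1 : c < 1) {X : Type*} {𝒜 : MeasurableSpace X}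
    [m : MeasurableSpace X] {μ : Measure X} [IsProbabilityMeasure μ] {T : X → X}
    (hT : MeasurePreserving T μ μ) (h𝒜 : 𝒜 ≤ m) (hA : 𝒜.comap T ≤ 𝒜) {r : ℕ}
    (f : Fin (r + 1) → X → ℂ) (k p : ℕ)
    (hf : ∀ i, TypP T 𝒜 (f i) ∨ TypK T 𝒜 μ k p (f i)) (h0 : ∃ i, TypK T 𝒜 μ k p (f i)) :
    L2C c μ T f := by
  have hav := kavg hc0 hc1 hT h𝒜 hA f k p hf h0
  obtain ⟨i, hi⟩ := h0
  have hz : ∏ j, ∫ y, f j y ∂μ = 0 := Finset.prod_eq_zero (Finset.mem_univ i) (ek_int hT hi)
  have hbd : ∀ i, Bdd (f i) := fun i => (hf i).elim (fun h => h.1) (fun h => h.1)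
  choose hfm C hC using hbd
  obtain ⟨B, hB⟩ : ∃ B : ℝ, B = ∏ j, |C j| := ⟨_, rfl⟩
  have hB0 : 0 ≤ B := by
    rw [hB]
    exact Finset.prod_nonneg fun j _ => abs_nonneg _
  have hub : ∀ n x, ‖∏ j, f j (T^[a c (n + j.1)] x)‖ ≤ B := by
    intro n x
    rw [norm_prod, hB]
    exact Finset.prod_le_prod (fun j _ => norm_nonneg _) fun j _ => (hC j _).trans (le_abs_self _)
  have havb : ∀ N x, ‖av N fun n => ∏ j, f j (T^[a c (n + j.1)] x)‖ ≤ B := by
    intro N x
    unfold av
    rw [norm_mul, norm_inv, Complex.norm_natCast]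
    rcases Nat.eq_zero_or_pos N with h0 | h0
    · subst h0
      simpa using hB0
    · have hN : (0 : ℝ) < N := by exact_mod_cast h0
      have h1 : ‖∑ n ∈ Finset.Icc 1 N, ∏ j, f j (T^[a c (n + j.1)] x)‖ ≤ N * B := by
        refine (norm_sum_le _ _).trans ?_
        refine (Finset.sum_le_sum fun n _ => hub n x).trans (le_of_eq ?_)
        rw [Finset.sum_const, Nat.card_Icc, Nat.add_sub_cancel, nsmul_eq_mul]
      calc (N : ℝ)⁻¹ * ‖∑ n ∈ Finset.Icc 1 N, ∏ j, f j (T^[a c (n + j.1)] x)‖ ≤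
            (N : ℝ)⁻¹ * (N * B) := mul_le_mul_of_nonneg_left h1 (by positivity)
        _ = B := by field_simp
  have hm : ∀ N, Measurable fun x => av N fun n => ∏ j, f j (T^[a c (n + j.1)] x) := by
    intro N
    unfold av
    exact measurable_const.mul (Finset.measurable_sum _ fun n _ =>
      Finset.measurable_prod _ fun j _ => (hfm j).comp (hT.measurable.iterate _))
  unfold L2C
  rw [hz]
  simp only [sub_zero]
  have key := tendsto_integral_of_dominated_convergence (μ := μ)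
    (F := fun N x => ‖av N fun n => ∏ j, f j (T^[a c (n + j.1)] x)‖ ^ 2) (f := fun _ => (0 : ℝ))
    (fun _ => B ^ 2) (fun N => ((hm N).norm.pow_const 2).aestronglyMeasurable)
    (integrable_const _) (fun N => Eventually.of_forall fun x => by
      rw [Real.norm_eq_abs, abs_of_nonneg (by positivity)]
      exact pow_le_pow_left₀ (norm_nonneg _) (havb N x) 2) (by
      filter_upwards [hav] with x hx
      have h1 := (hx.norm).pow 2
      rw [norm_zero, zero_pow (by norm_num)] at h1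
      exact h1)
  simpa using key

end Pool.Agent.PJN
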