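import Pool.Agent.PJN.Defs2

set_option autoImplicit false

/-!
# PJN/ExtT: tail measurable functions live on the factor

PROOF. Let `𝒯` be a sub-σ-algebra each set of which is `π ⁻¹' B` mod null.  Induction on the `𝒯`-strongly measurable function
(`StronglyMeasurable.induction'`): constants, piecewise (`s = π ⁻¹' B` mod null), limits (`limUnder` of the functions on the factor).  At the end
truncate at the bound.
-/

namespace Pool.Agent.PJN

open MeasureTheory Filter Topology Pool.Agent.VINO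

theorem exists_factor {X Y : Type*} {𝒯 : MeasurableSpace X} [m : MeasurableSpace X]
    [MeasurableSpace Y] {μ : Measure X} [IsProbabilityMeasure μ] (h𝒯 : 𝒯 ≤ m) {π : X → Y}
    (hπ : Measurable π)
    (ht : ∀ A : Set X, MeasurableSet[𝒯] A → ∃ B : Set Y, MeasurableSet B ∧ π ⁻¹' B =ᵐ[μ] A)
    (f : X → ℂ) (hf : Measurable[𝒯] f) (hb : ∃ M : ℝ, ∀ x, ‖f x‖ ≤ M) :
    ∃ h : Y → ℂ, Bdd h ∧ ∀ᵐ x ∂μ, f x = h (π x) := by
  classical
  obtain ⟨M, hM⟩ := hb
  have hfs : StronglyMeasurable[𝒯] f := hf.stronglyMeasurable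
  have key : ∃ h : Y → ℂ, StronglyMeasurable h ∧ ∀ᵐ x ∂μ, f x = h (π x) := by
    refine @StronglyMeasurable.induction' X ℂ 𝒯 _ _
      (fun g _ => ∃ h : Y → ℂ, StronglyMeasurable h ∧ ∀ᵐ x ∂μ, g x = h (π x)) ?_ ?_ ?_ f hfs
    · intro z
      exact ⟨fun _ => z, stronglyMeasurable_const, ae_of_all _ fun _ => rfl⟩
    · rintro g1 g2 s _ _ hs ⟨h1, m1, e1⟩ ⟨h2, m2, e2⟩
      obtain ⟨B, hB, hBs⟩ := ht s hs
      refine ⟨B.piecewise h1 h2, m1.piecewise hB m2, ?_⟩
      filter_upwards [hBs.mem_iff, e1, e2] with x hx hx1 hx2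
      by_cases hxs : x ∈ s
      · have hxB : π x ∈ B := hx.2 hxs
        rw [Set.piecewise_eq_of_mem _ _ _ hxs, Set.piecewise_eq_of_mem _ _ _ hxB, hx1]
      · have hxB : π x ∉ B := fun h => hxs (hx.1 h)
        rw [Set.piecewise_eq_of_notMem _ _ _ hxs, Set.piecewise_eq_of_notMem _ _ _ hxB, hx2]
    · intro gn g _ _ hn hlim
      choose h mh hh using hn
      refine ⟨fun y => limUnder atTop (h · y), StronglyMeasurable.limUnder mh, ?_⟩
      filter_upwards [ae_all_iff.2 hh] with x hx
      have h1 : Tendsto (fun n => h n (π x)) atTop (𝓝 (g x)) := by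
        refine (hlim x).congr fun n => ?_
        exact hx n
      exact h1.limUnder_eq.symm
  obtain ⟨h, mh, hh⟩ := key
  refine ⟨fun y => if ‖h y‖ ≤ M then h y else 0, ⟨?_, max M 0, fun y => ?_⟩, ?_⟩
  · exact Measurable.ite (measurableSet_le mh.measurable.norm measurable_const) mh.measurable
      measurable_const
  · by_cases hy : ‖h y‖ ≤ M
    · simp only [if_pos hy]
      exact hy.trans (le_max_left _ _)
    · simp only [if_neg hy, norm_zero]
      exact le_max_right _ _
  · filter_upwards [hh] with x hx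
    rw [if_pos (by rw [← hx]; exact hM x)]
    exact hx

end Pool.Agent.PJN
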