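import Pool.Agent.VINO.FurA
import Pool.Agent.VINO.FurB
import Pool.Agent.PJN.Defs

set_option autoImplicit false

/-!
# PJN/FurL: convergence to the product measure along a filter

PROOF. `furL`: the proof of `VINO.furA` (file `VINO/FurA.lean`, copy it) with `atTop` replaced by a filter `l ≤ atTop`
(the only place where `atTop` is used is `(N : ℂ)⁻¹ * (U N - U 0) → 0`: `.mono_left hl`).
`furM`: `mono_dense` (the monomials span a dense subspace of `C (closedBall 0 R, ℂ)`) and the argument of `VINO.ptw` (file `VINO/PwA`, `PwB` or `Ptw`): multilinearity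
and uniform approximation give `h` of `furL` for all continuous `φ j` from the monomials.
-/

namespace Pool.Agent.PJN

open MeasureTheory Filter Topology Pool.Agent.VINO

private theorem fa_av_sub (N : ℕ) (u v : ℕ → ℂ) {δ : ℝ} (hδ : 0 ≤ δ)
    (h : ∀ n, ‖u n - v n‖ ≤ δ) : ‖av N u - av N v‖ ≤ δ := by
  unfold av
  rw [← mul_sub, ← Finset.sum_sub_distrib, norm_mul, norm_inv, Complex.norm_natCast]
  rcases Nat.eq_zero_or_pos N with h0 | h0
  · subst h0
    simpa using hδ
  · have hN : (0 : ℝ) < N := by exact_mod_cast h0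
    have h1 : ‖∑ n ∈ Finset.Icc 1 N, (u n - v n)‖ ≤ N * δ := by
      refine (norm_sum_le _ _).trans ?_
      refine (Finset.sum_le_sum fun n _ => h n).trans (le_of_eq ?_)
      rw [Finset.sum_const, Nat.card_Icc, Nat.add_sub_cancel, nsmul_eq_mul]
    calc (N : ℝ)⁻¹ * ‖∑ n ∈ Finset.Icc 1 N, (u n - v n)‖ ≤ (N : ℝ)⁻¹ * (N * δ) :=
          mul_le_mul_of_nonneg_left h1 (by positivity)
      _ = δ := by field_simp

private theorem fa_shift_one {l : Filter ℕ} (hl : l ≤ atTop) (U : ℤ → ℂ) {B : ℝ}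
    (hB : ∀ n, ‖U n‖ ≤ B) {L : ℂ}
    (h : Tendsto (fun N => av N fun n => U n) l (𝓝 L)) :
    Tendsto (fun N => av N fun n => U ((n : ℤ) - 1)) l (𝓝 L) := by
  have h1 : ∀ N : ℕ, (av N fun n => U n) - (av N fun n => U ((n : ℤ) - 1)) =
      (N : ℂ)⁻¹ * (U N - U 0) := by
    intro N
    unfold av
    rw [← mul_sub, ← Finset.sum_sub_distrib]
    congr 1
    induction N with
    | zero => simp
    | succ N ih =>
      rw [Finset.sum_Icc_succ_top (by omega), ih]
      push_cast
      rw [add_sub_cancel_right]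
      ring
  have h2 : Tendsto (fun N : ℕ => (N : ℂ)⁻¹ * (U N - U 0)) atTop (𝓝 0) := by
    rw [tendsto_zero_iff_norm_tendsto_zero]
    have h3 : Tendsto (fun N : ℕ => (N : ℝ)⁻¹ * (2 * B)) atTop (𝓝 (0 * (2 * B))) :=
      tendsto_inv_atTop_nhds_zero_nat.mul_const _
    rw [zero_mul] at h3
    refine squeeze_zero (fun _ => norm_nonneg _) (fun N => ?_) h3
    rw [norm_mul, norm_inv, Complex.norm_natCast]
    refine mul_le_mul_of_nonneg_left ?_ (by positivity)
    refine (norm_sub_le _ _).trans ?_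
    linarith [hB N, hB 0]
  have h4 := h.sub (h2.mono_left hl)
  rw [sub_zero] at h4
  refine h4.congr fun N => ?_
  rw [← h1]
  ring

private theorem fa_shift {l : Filter ℕ} (hl : l ≤ atTop) (m : ℕ) (U : ℤ → ℂ) {B : ℝ}
    (hB : ∀ n, ‖U n‖ ≤ B) {L : ℂ}
    (h : Tendsto (fun N => av N fun n => U n) l (𝓝 L)) :
    Tendsto (fun N => av N fun n => U ((n : ℤ) - m)) l (𝓝 L) := by
  induction m with
  | zero => simpa using h
  | succ m ih =>
    have h1 := fa_shift_one hl (fun t => U (t - m)) (fun n => hB _) ih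
    refine h1.congr fun N => ?_
    unfold av
    congr 1
    refine Finset.sum_congr rfl fun n _ => ?_
    push_cast
    congr 1
    ring

private theorem fa_reindex {M : Type*} [CommMonoid M] (m : ℕ) (f : ℤ → M) :
    ∏ j : Fin (2 * m + 1), f ((j.1 : ℤ) - m) = ∏ k ∈ Finset.Icc (-(m : ℤ)) m, f k := by
  refine Finset.prod_bij (fun j _ => (j.1 : ℤ) - m) ?_ ?_ ?_ ?_
  · intro j _
    rw [Finset.mem_Icc]
    have := j.2
    omega
  · intro j _ j' _ h
    apply Fin.ext
    omega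
  · intro k hk
    rw [Finset.mem_Icc] at hk
    refine ⟨⟨(k + m).toNat, by omega⟩, Finset.mem_univ _, ?_⟩
    change (((k + m).toNat : ℕ) : ℤ) - m = k
    omega
  · intro j _
    rfl

section main

variable {Y : Type*} [MetricSpace Y] [CompactSpace Y]

/-- product of functions of the coordinates -/
private noncomputable def pF (s : Finset ℤ) (φ : ℤ → C(Y, ℂ)) : C(ℤ → Y, ℂ) :=
  ∏ k ∈ s, (φ k).comp ⟨fun w : ℤ → Y => w k, continuous_apply k⟩

omit [CompactSpace Y] in
private theorem pF_apply (s : Finset ℤ) (φ : ℤ → C(Y, ℂ)) (w : ℤ → Y) :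
    pF s φ w = ∏ k ∈ s, φ k (w k) := by
  unfold pF
  rw [ContinuousMap.prod_apply]
  rfl

omit [CompactSpace Y] in
private theorem pF_ext {s t : Finset ℤ} (h : s ⊆ t) (φ : ℤ → C(Y, ℂ)) :
    pF s φ = pF t (fun k => if k ∈ s then φ k else 1) := by
  ext w
  rw [pF_apply, pF_apply, ← Finset.prod_subset h]
  · refine Finset.prod_congr rfl fun k hk => ?_
    rw [if_pos hk]
  · intro k _ hk
    rw [if_neg hk]
    rfl

omit [CompactSpace Y] in
private theorem pF_mul (s t : Finset ℤ) (φ ψ : ℤ → C(Y, ℂ)) :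
    ∃ (u : Finset ℤ) (χ : ℤ → C(Y, ℂ)), pF s φ * pF t ψ = pF u χ := by
  refine ⟨s ∪ t, fun k => (if k ∈ s then φ k else 1) * (if k ∈ t then ψ k else 1), ?_⟩
  rw [pF_ext (Finset.subset_union_left (s₂ := t)) φ,
    pF_ext (Finset.subset_union_right (s₁ := s)) ψ]
  ext w
  rw [ContinuousMap.mul_apply, pF_apply, pF_apply, pF_apply, ← Finset.prod_mul_distrib]
  rfl

/-- the span of the products -/
private noncomputable def spF (Y : Type*) [MetricSpace Y] [CompactSpace Y] :
    Submodule ℂ C(ℤ → Y, ℂ) :=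
  Submodule.span ℂ {F | ∃ (s : Finset ℤ) (φ : ℤ → C(Y, ℂ)), F = pF s φ}

private noncomputable def spA (Y : Type*) [MetricSpace Y] [CompactSpace Y] :
    StarSubalgebra ℂ C(ℤ → Y, ℂ) where
  carrier := spF Y
  mul_mem' := by
    intro a b ha hb
    refine Submodule.span_induction₂ (p := fun a b _ _ => a * b ∈ spF Y) ?_ ?_ ?_ ?_ ?_ ?_ ?_
      ha hb
    · rintro _ _ ⟨s, φ, rfl⟩ ⟨t, ψ, rfl⟩
      obtain ⟨u, χ, h⟩ := pF_mul s t φ ψ
      rw [h]
      exact Submodule.subset_span ⟨u, χ, rfl⟩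
    · intro y _
      rw [zero_mul]
      exact zero_mem _
    · intro x _
      rw [mul_zero]
      exact zero_mem _
    · intro x y z _ _ _ h1 h2
      rw [add_mul]
      exact add_mem h1 h2
    · intro x y z _ _ _ h1 h2
      rw [mul_add]
      exact add_mem h1 h2
    · intro r x y _ _ h
      rw [smul_mul_assoc]
      exact Submodule.smul_mem _ _ h
    · intro r x y _ _ h
      rw [mul_smul_comm]
      exact Submodule.smul_mem _ _ h
  add_mem' := fun ha hb => (spF Y).add_mem ha hb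
  algebraMap_mem' := by
    intro r
    have h1 : (algebraMap ℂ C(ℤ → Y, ℂ)) r = r • pF ∅ (fun _ => (1 : C(Y, ℂ))) := by
      ext w
      rw [ContinuousMap.smul_apply, pF_apply, Finset.prod_empty]
      simp
    rw [h1]
    exact Submodule.smul_mem _ _ (Submodule.subset_span ⟨_, _, rfl⟩)
  star_mem' := by
    intro a ha
    refine Submodule.span_induction (p := fun a _ => star a ∈ spF Y) ?_ ?_ ?_ ?_ ha
    · rintro _ ⟨s, φ, rfl⟩
      have h1 : star (pF s φ) = pF s (fun k => star (φ k)) := by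
        ext w
        rw [ContinuousMap.star_apply, pF_apply, pF_apply, star_prod]
        rfl
      rw [h1]
      exact Submodule.subset_span ⟨_, _, rfl⟩
    · rw [star_zero]
      exact zero_mem _
    · intro x y _ _ h1 h2
      rw [star_add]
      exact add_mem h1 h2
    · intro r x _ h
      rw [star_smul]
      exact Submodule.smul_mem _ _ h

private theorem spA_sep : (spA Y).SeparatesPoints := by
  intro w w' hne
  obtain ⟨k, hk⟩ := Function.ne_iff.1 hne
  let g : C(Y, ℂ) := ⟨fun y => ((dist y (w' k) : ℝ) : ℂ), by fun_prop⟩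
  refine ⟨_, ⟨pF {k} (fun _ => g), Submodule.subset_span ⟨_, _, rfl⟩, rfl⟩, ?_⟩
  change pF {k} (fun _ => g) w ≠ pF {k} (fun _ => g) w'
  rw [pF_apply, pF_apply, Finset.prod_singleton, Finset.prod_singleton]
  change ((dist (w k) (w' k) : ℝ) : ℂ) ≠ ((dist (w' k) (w' k) : ℝ) : ℂ)
  rw [dist_self]
  intro h
  exact hk (dist_eq_zero.1 (Complex.ofReal_injective h))

private theorem spF_dense (F : C(ℤ → Y, ℂ)) : F ∈ closure (spF Y : Set C(ℤ → Y, ℂ)) := by
  have h1 := ContinuousMap.starSubalgebra_topologicalClosure_eq_top_of_separatesPoints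
    (spA Y) spA_sep
  have h2 : F ∈ (spA Y).topologicalClosure := by
    rw [h1]
    exact StarSubalgebra.mem_top
  exact h2

end main

theorem furL {Y : Type*} [MetricSpace Y] [CompactSpace Y] [MeasurableSpace Y] [BorelSpace Y]
    {l : Filter ℕ} (hl : l ≤ atTop) (ω : ℤ → Y) (ρ : Measure Y) [IsProbabilityMeasure ρ]
    (h : ∀ (r : ℕ) (φ : Fin (r + 1) → C(Y, ℂ)),
      Tendsto (fun N => av N fun n => ∏ j, φ j (ω ((n : ℤ) + (j.1 : ℤ)))) l
        (𝓝 (∏ j, ∫ t, φ j t ∂ρ)))
    (F : (ℤ → Y) → ℂ) (hF : Continuous F) :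
    Tendsto (fun N => av N fun n => F fun k => ω (k + n)) l
      (𝓝 (∫ w, F w ∂(Measure.infinitePi fun _ : ℤ => ρ))) := by
  have : SecondCountableTopology Y := inferInstance
  set μ : Measure (ℤ → Y) := Measure.infinitePi fun _ : ℤ => ρ with hμ
  have hint : ∀ F : C(ℤ → Y, ℂ), Integrable F μ := fun F =>
    Integrable.of_bound F.continuous.aestronglyMeasurable ‖F‖
      (Eventually.of_forall fun w => F.norm_coe_le_norm w)
  let Good : C(ℤ → Y, ℂ) → Prop := fun F =>
    Tendsto (fun N => av N fun n => F fun k => ω (k + n)) l (𝓝 (∫ w, F w ∂μ))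
  -- products
  have hprod : ∀ (s : Finset ℤ) (φ : ℤ → C(Y, ℂ)), Good (pF s φ) := by
    intro s φ
    obtain ⟨m, hm⟩ : ∃ m : ℕ, s ⊆ Finset.Icc (-(m : ℤ)) m := by
      refine ⟨∑ k ∈ s, k.natAbs, fun k hk => ?_⟩
      have h1 : k.natAbs ≤ ∑ k ∈ s, k.natAbs :=
        Finset.single_le_sum (f := fun k : ℤ => k.natAbs) (fun _ _ => Nat.zero_le _) hk
      rw [Finset.mem_Icc]
      omega
    rw [pF_ext hm φ]
    generalize (fun k => if k ∈ s then φ k else 1) = ψ
    have hI : ∫ w, pF (Finset.Icc (-(m : ℤ)) m) ψ w ∂μ =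
        ∏ j : Fin (2 * m + 1), ∫ t, ψ ((j.1 : ℤ) - m) t ∂ρ := by
      rw [fa_reindex m fun k => ∫ t, ψ k t ∂ρ]
      have h1 : ∀ w : ℤ → Y, pF (Finset.Icc (-(m : ℤ)) m) ψ w =
          (fun y : (Finset.Icc (-(m : ℤ)) m) → Y => ∏ k, ψ k.1 (y k))
            ((Finset.Icc (-(m : ℤ)) m).restrict w) := by
        intro w
        rw [pF_apply]
        exact (Finset.prod_coe_sort _ fun k => ψ k (w k)).symm
      simp only [h1]
      rw [hμ, integral_restrict_infinitePi (μ := fun _ : ℤ => ρ)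
        (f := fun y : (Finset.Icc (-(m : ℤ)) m) → Y => ∏ k, ψ k.1 (y k))
        (by
          apply Continuous.aestronglyMeasurable
          fun_prop)]
      rw [integral_fintype_prod_eq_prod (fun (k : Finset.Icc (-(m : ℤ)) m) (t : Y) => ψ k.1 t)]
      exact Finset.prod_coe_sort _ fun k => ∫ t, ψ k t ∂ρ
    change Tendsto _ _ (𝓝 (∫ w, pF (Finset.Icc (-(m : ℤ)) m) ψ w ∂μ))
    rw [hI]
    have h2 := h (2 * m) fun j => ψ ((j.1 : ℤ) - m)
    set U : ℤ → ℂ := fun t => ∏ j : Fin (2 * m + 1), ψ ((j.1 : ℤ) - m) (ω (t + (j.1 : ℤ)))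
      with hU
    have hUB : ∀ t, ‖U t‖ ≤ ∏ j : Fin (2 * m + 1), ‖ψ ((j.1 : ℤ) - m)‖ := by
      intro t
      rw [hU]
      simp only [norm_prod]
      exact Finset.prod_le_prod (fun _ _ => norm_nonneg _)
        fun j _ => ContinuousMap.norm_coe_le_norm _ _
    have h3 := fa_shift hl m U hUB h2
    refine h3.congr fun N => ?_
    unfold av
    congr 1
    refine Finset.sum_congr rfl fun n _ => ?_
    change U ((n : ℤ) - m) = pF (Finset.Icc (-(m : ℤ)) m) ψ fun k => ω (k + n)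
    rw [pF_apply, ← fa_reindex m fun k => ψ k (ω (k + n)), hU]
    refine Finset.prod_congr rfl fun j _ => ?_
    congr 2
    ring
  -- linear combinations
  have hspan : ∀ F ∈ spF Y, Good F := by
    intro F hF
    refine Submodule.span_induction (p := fun F _ => Good F) ?_ ?_ ?_ ?_ hF
    · rintro _ ⟨s, φ, rfl⟩
      exact hprod s φ
    · change Tendsto _ _ (𝓝 (∫ w, (0 : C(ℤ → Y, ℂ)) w ∂μ))
      simp [av]
      exact tendsto_const_nhds
    · intro F G _ _ h1 h2
      change Tendsto _ _ (𝓝 (∫ w, (F + G) w ∂μ))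
      have e1 : ∫ w, (F + G) w ∂μ = ∫ w, F w ∂μ + ∫ w, G w ∂μ :=
        integral_add (hint F) (hint G)
      rw [e1]
      refine (h1.add h2).congr fun N => ?_
      unfold av
      rw [← mul_add, ← Finset.sum_add_distrib]
      rfl
    · intro r F _ h1
      change Tendsto _ _ (𝓝 (∫ w, (r • F) w ∂μ))
      have e1 : ∫ w, (r • F) w ∂μ = r * ∫ w, F w ∂μ := integral_const_mul r _
      rw [e1]
      refine (h1.const_mul r).congr fun N => ?_
      unfold av
      rw [← mul_assoc, mul_comm r, mul_assoc, Finset.mul_sum]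
      rfl
  -- closure
  have hall : ∀ F : C(ℤ → Y, ℂ), Good F := by
    intro F
    change Tendsto _ _ (𝓝 (∫ w, F w ∂μ))
    rw [Metric.tendsto_nhds]
    intro ε hε
    obtain ⟨G, hG, hd⟩ := Metric.mem_closure_iff.1 (spF_dense F) (ε / 3) (by linarith)
    filter_upwards [Metric.tendsto_nhds.1 (hspan G hG) (ε / 3) (by linarith)] with N h1
    have hdn : ∀ w, ‖F w - G w‖ ≤ ε / 3 := by
      intro w
      rw [← dist_eq_norm]
      exact (ContinuousMap.dist_apply_le_dist w).trans hd.le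
    have h2 : ‖(av N fun n => F fun k => ω (k + n)) - (av N fun n => G fun k => ω (k + n))‖ ≤
        ε / 3 := fa_av_sub N _ _ (by linarith) fun n => hdn _
    have h3 : ‖(∫ w, G w ∂μ) - ∫ w, F w ∂μ‖ ≤ ε / 3 := by
      rw [← integral_sub (hint G) (hint F)]
      refine (norm_integral_le_of_norm_le_const (C := ε / 3)
        (Eventually.of_forall fun w => ?_)).trans (le_of_eq ?_)
      · rw [norm_sub_rev]
        exact hdn w
      · rw [probReal_univ, mul_one]
    rw [dist_eq_norm] at h1 ⊢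
    have e : (av N fun n => F fun k => ω (k + n)) - ∫ w, F w ∂μ =
        ((av N fun n => F fun k => ω (k + n)) - (av N fun n => G fun k => ω (k + n))) +
        ((av N fun n => G fun k => ω (k + n)) - ∫ w, G w ∂μ) +
        ((∫ w, G w ∂μ) - ∫ w, F w ∂μ) := by ring
    rw [e]
    refine (norm_add_le _ _).trans_lt ?_
    have := norm_add_le ((av N fun n => F fun k => ω (k + n)) - (av N fun n => G fun k => ω (k + n)))
      ((av N fun n => G fun k => ω (k + n)) - ∫ w, G w ∂μ)
    linarith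
  exact hall ⟨F, hF⟩

private theorem fl_av_add (N : ℕ) (u v : ℕ → ℂ) :
    av N (fun n => u n + v n) = av N u + av N v := by
  unfold av
  rw [Finset.sum_add_distrib, mul_add]

private theorem fl_av_sub (N : ℕ) (u v : ℕ → ℂ) :
    av N (fun n => u n - v n) = av N u - av N v := by
  unfold av
  rw [Finset.sum_sub_distrib, mul_sub]

private theorem fl_av_mul (N : ℕ) (z : ℂ) (u : ℕ → ℂ) :
    av N (fun n => z * u n) = z * av N u := by
  unfold av
  rw [← Finset.mul_sum]
  ring

/-- a product with one slot updated -/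
private theorem prod_upd {ι : Type*} [Fintype ι] [DecidableEq ι] {E : Type*} (L : ι → E → ℂ)
    (g : ι → E) (j : ι) (f : E) :
    ∏ i, L i (Function.update g j f i) = L j f * ∏ i ∈ Finset.univ.erase j, L i (g i) := by
  rw [← Finset.mul_prod_erase Finset.univ _ (Finset.mem_univ j), Function.update_self]
  congr 1
  refine Finset.prod_congr rfl (fun i hi => ?_)
  rw [Function.update_of_ne (Finset.ne_of_mem_erase hi)]

private theorem fl_close {fl : Filter ℕ} {F : ℕ → ℂ} {l : ℂ}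
    (h : ∀ ε : ℝ, 0 < ε → ∃ (F' : ℕ → ℂ) (l' : ℂ),
      Tendsto F' fl (𝓝 l') ∧ (∀ N, ‖F N - F' N‖ ≤ ε) ∧ ‖l - l'‖ ≤ ε) :
    Tendsto F fl (𝓝 l) := by
  rw [Metric.tendsto_nhds]
  intro ε hε
  obtain ⟨F', l', hF', hd, hl⟩ := h (ε / 4) (by positivity)
  filter_upwards [Metric.tendsto_nhds.1 hF' (ε / 4) (by positivity)] with n h1
  have h2 := hd n
  rw [dist_eq_norm] at h1 ⊢
  have h4 : F n - l = (F n - F' n) + (F' n - l') - (l - l') := by ring
  rw [h4]
  have h5 := norm_sub_le ((F n - F' n) + (F' n - l')) (l - l')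
  have h6 := norm_add_le (F n - F' n) (F' n - l')
  linarith

theorem furM {R : ℝ} {l : Filter ℕ} (hl : l ≤ atTop) (ω : ℤ → Metric.closedBall (0 : ℂ) R)
    (ρ : Measure (Metric.closedBall (0 : ℂ) R)) [IsProbabilityMeasure ρ]
    (h : ∀ (r : ℕ) (p : Fin (r + 1) → ℕ × ℕ),
      Tendsto (fun N => av N fun n => ∏ j, mono (p j) (ω ((n : ℤ) + (j.1 : ℤ)) : ℂ)) l
        (𝓝 (∏ j, ∫ t, mono (p j) (t : ℂ) ∂ρ)))
    (F : (ℤ → Metric.closedBall (0 : ℂ) R) → ℂ) (hF : Continuous F) :
    Tendsto (fun N => av N fun n => F fun k => ω (k + n)) l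
      (𝓝 (∫ w, F w ∂(Measure.infinitePi fun _ : ℤ => ρ))) := by
  have hc : CompactSpace (Metric.closedBall (0 : ℂ) R) :=
    isCompact_iff_compactSpace.1 (isCompact_closedBall _ _)
  refine furL hl ω ρ ?_ F hF
  intro r φ
  set M : C(Metric.closedBall (0 : ℂ) R, ℂ) → ℂ := fun f => ∫ t, f t ∂ρ with hM
  have hint : ∀ f : C(Metric.closedBall (0 : ℂ) R, ℂ), Integrable f ρ := fun f =>
    Integrable.of_bound f.continuous.aestronglyMeasurable ‖f‖
      (Eventually.of_forall fun w => f.norm_coe_le_norm w)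
  have hMadd : ∀ f f', M (f + f') = M f + M f' := fun f f' => integral_add (hint f) (hint f')
  have hMsmul : ∀ (z : ℂ) f, M (z • f) = z * M f := fun z f => integral_const_mul z _
  have hM0 : M 0 = 0 := by
    have h1 := hMsmul 0 0
    simpa using h1
  have hMd : ∀ f f', ‖M f - M f'‖ ≤ ‖f - f'‖ := by
    intro f f'
    have h1 : M f - M f' = ∫ t, (f t - f' t) ∂ρ := (integral_sub (hint f) (hint f')).symm
    rw [h1]
    refine (norm_integral_le_of_norm_le_const (C := ‖f - f'‖)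
      (Eventually.of_forall fun w => (f - f').norm_coe_le_norm w)).trans (le_of_eq ?_)
    rw [probReal_univ, mul_one]
  have hP1 : ∀ (g : Fin (r + 1) → C(Metric.closedBall (0 : ℂ) R, ℂ)) (j : Fin (r + 1))
      (f : C(Metric.closedBall (0 : ℂ) R, ℂ)) (n : ℕ),
      ∏ i, (Function.update g j f) i (ω ((n : ℤ) + (i.1 : ℤ))) =
        f (ω ((n : ℤ) + (j.1 : ℤ))) * ∏ i ∈ Finset.univ.erase j, g i (ω ((n : ℤ) + (i.1 : ℤ))) :=
    fun g j f n => prod_upd
      (fun i (u : C(Metric.closedBall (0 : ℂ) R, ℂ)) => u (ω ((n : ℤ) + (i.1 : ℤ)))) g j f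
  have hP2 : ∀ (g : Fin (r + 1) → C(Metric.closedBall (0 : ℂ) R, ℂ)) (j : Fin (r + 1))
      (f : C(Metric.closedBall (0 : ℂ) R, ℂ)),
      ∏ i, M (Function.update g j f i) = M f * ∏ i ∈ Finset.univ.erase j, M (g i) :=
    fun g j f => prod_upd (fun _ (u : C(Metric.closedBall (0 : ℂ) R, ℂ)) => M u) g j f
  change Tendsto _ l (𝓝 (∏ j, M (φ j)))
  refine slots (fun g : Fin (r + 1) → C(Metric.closedBall (0 : ℂ) R, ℂ) =>
    Tendsto (fun N => av N fun n => ∏ j, g j (ω ((n : ℤ) + (j.1 : ℤ)))) l (𝓝 (∏ j, M (g j))))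
    ?_ ?_ ?_ ?_ (Set.range fun p : ℕ × ℕ => (mono p).comp
        (⟨Subtype.val, continuous_subtype_val⟩ : C(Metric.closedBall (0 : ℂ) R, ℂ)))
    ?_ φ (fun j => mono_dense R (φ j))
  · intro g j f f' h1 h2
    simp only [hP1, hP2] at h1 h2 ⊢
    have h3 : (fun N => av N fun n => (f + f') (ω ((n : ℤ) + (j.1 : ℤ))) *
        ∏ i ∈ Finset.univ.erase j, g i (ω ((n : ℤ) + (i.1 : ℤ)))) =
        fun N => (av N fun n => f (ω ((n : ℤ) + (j.1 : ℤ))) *
          ∏ i ∈ Finset.univ.erase j, g i (ω ((n : ℤ) + (i.1 : ℤ)))) +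
        (av N fun n => f' (ω ((n : ℤ) + (j.1 : ℤ))) *
          ∏ i ∈ Finset.univ.erase j, g i (ω ((n : ℤ) + (i.1 : ℤ)))) := by
      funext N
      rw [← fl_av_add]
      congr 1
      funext n
      rw [ContinuousMap.add_apply, add_mul]
    rw [h3, hMadd, add_mul]
    exact h1.add h2
  · intro g j z f h1
    simp only [hP1, hP2] at h1 ⊢
    have h3 : (fun N => av N fun n => (z • f) (ω ((n : ℤ) + (j.1 : ℤ))) *
        ∏ i ∈ Finset.univ.erase j, g i (ω ((n : ℤ) + (i.1 : ℤ)))) =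
        fun N => z * (av N fun n => f (ω ((n : ℤ) + (j.1 : ℤ))) *
          ∏ i ∈ Finset.univ.erase j, g i (ω ((n : ℤ) + (i.1 : ℤ)))) := by
      funext N
      rw [← fl_av_mul]
      congr 1
      funext n
      rw [ContinuousMap.smul_apply, smul_eq_mul, mul_assoc]
    rw [h3, hMsmul, mul_assoc]
    exact h1.const_mul z
  · intro g j
    simp only [hP1, hP2]
    rw [hM0, zero_mul]
    have h3 : (fun N => av N fun n =>
        (0 : C(Metric.closedBall (0 : ℂ) R, ℂ)) (ω ((n : ℤ) + (j.1 : ℤ))) *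
        ∏ i ∈ Finset.univ.erase j, g i (ω ((n : ℤ) + (i.1 : ℤ)))) = fun _ => 0 := by
      funext N
      simp [av]
    rw [h3]
    exact tendsto_const_nhds
  · intro g j f h1
    simp only [hP1, hP2] at h1 ⊢
    refine fl_close (fun ε hε => ?_)
    have hK : 0 ≤ ∏ i ∈ Finset.univ.erase j, ‖g i‖ :=
      Finset.prod_nonneg (fun i _ => norm_nonneg _)
    obtain ⟨f', hf', hT⟩ := h1 (ε / (∏ i ∈ Finset.univ.erase j, ‖g i‖ + 1)) (by positivity)
    have hεK : ‖f - f'‖ * ∏ i ∈ Finset.univ.erase j, ‖g i‖ ≤ ε := by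
      calc ‖f - f'‖ * ∏ i ∈ Finset.univ.erase j, ‖g i‖
          ≤ ε / (∏ i ∈ Finset.univ.erase j, ‖g i‖ + 1) *
            (∏ i ∈ Finset.univ.erase j, ‖g i‖ + 1) :=
            mul_le_mul hf' (by linarith) hK (by positivity)
        _ = ε := by field_simp
    refine ⟨_, _, hT, fun N => ?_, ?_⟩
    · rw [← fl_av_sub]
      refine av_norm_le hε.le (fun n _ => ?_) N
      rw [← sub_mul, norm_mul, norm_prod]
      refine le_trans (mul_le_mul ?_ (Finset.prod_le_prod (fun i _ => norm_nonneg _)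
        (fun i _ => (g i).norm_coe_le_norm (ω ((n : ℤ) + (i.1 : ℤ))))) (Finset.prod_nonneg
        (fun i _ => norm_nonneg _)) (norm_nonneg (f - f'))) hεK
      exact (f - f').norm_coe_le_norm (ω ((n : ℤ) + (j.1 : ℤ)))
    · rw [← sub_mul, norm_mul, norm_prod]
      refine le_trans (mul_le_mul (hMd f f') (Finset.prod_le_prod (fun i _ => norm_nonneg _)
        (fun i _ => ?_)) (Finset.prod_nonneg (fun i _ => norm_nonneg _))
        (norm_nonneg (f - f'))) hεK
      have h5 := hMd (g i) 0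
      rwa [hM0, sub_zero, sub_zero] at h5
  · intro g hg
    choose p hp using hg
    have e : g = fun j => (mono (p j)).comp
        (⟨Subtype.val, continuous_subtype_val⟩ : C(Metric.closedBall (0 : ℂ) R, ℂ)) :=
      funext fun j => (hp j).symm
    subst e
    exact h r p

end Pool.Agent.PJN
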