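import Mathlib

set_option autoImplicit false

/-!
# PJN/Sub: a common subsequence

PROOF. Let `e` be an encoding of `ι`. Choose `κ` strictly increasing with `∫ ‖D i (M (κ k))‖² dμ ≤ 2^(-k)` for all `i` with
`e i ≤ k` (`extraction_forall_of_eventually`). For each `i` the sum over `k` of the integrals is finite, so the sum over `k` of
`‖D i (M (κ k)) x‖²` is finite for almost every `x`, and its terms tend to `0`.
-/

namespace Pool.Agent.PJN

open MeasureTheory Filter Topology

theorem exists_sub {X : Type*} [MeasurableSpace X] (μ : Measure X) [IsProbabilityMeasure μ]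
    {ι : Type*} [Countable ι] (D : ι → ℕ → X → ℂ) (hD : ∀ i N, Measurable (D i N))
    (hb : ∀ i, ∃ C : ℝ, ∀ N x, ‖D i N x‖ ≤ C)
    (h : ∀ i, Tendsto (fun N => ∫ x, ‖D i N x‖ ^ 2 ∂μ) atTop (𝓝 0)) (M : ℕ → ℕ)
    (hM : StrictMono M) :
    ∃ κ : ℕ → ℕ, StrictMono κ ∧ ∀ᵐ x ∂μ, ∀ i,
      Tendsto (fun k => D i (M (κ k)) x) atTop (𝓝 0) := by
  classical
  obtain ⟨e, he⟩ := exists_injective_nat ι
  have hev : ∀ n : ℕ, ∀ᶠ k in atTop, ∀ i ∈ {i : ι | e i ≤ n},
      ∫ x, ‖D i (M k) x‖ ^ 2 ∂μ ≤ (1 / 2 : ℝ) ^ n := by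
    intro n
    have hfin : {i : ι | e i ≤ n}.Finite := (Set.finite_Iic n).preimage he.injOn
    rw [Filter.eventually_all_finite hfin]
    intro i _
    have h1 := ((h i).comp hM.tendsto_atTop).eventually
      (eventually_lt_nhds (show (0 : ℝ) < (1 / 2 : ℝ) ^ n by positivity))
    filter_upwards [h1] with k hk
    exact hk.le
  obtain ⟨κ, hκ, hκ2⟩ := Filter.extraction_forall_of_eventually hev
  refine ⟨κ, hκ, ?_⟩
  rw [ae_all_iff]
  intro i
  obtain ⟨C, hC⟩ := hb i
  have hmeas : ∀ N, Measurable fun x => ‖D i N x‖ ^ 2 := fun N => ((hD i N).norm).pow_const 2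
  have hint : ∀ N, Integrable (fun x => ‖D i N x‖ ^ 2) μ := by
    intro N
    refine Integrable.of_bound (hmeas N).aestronglyMeasurable (C ^ 2) (ae_of_all _ fun x => ?_)
    rw [Real.norm_of_nonneg (by positivity)]
    exact pow_le_pow_left₀ (norm_nonneg _) (hC N x) 2
  have hsum : ∑' k, ∫⁻ x, ENNReal.ofReal (‖D i (M (κ (k + e i))) x‖ ^ 2) ∂μ ≠ ⊤ := by
    have h2 : ∀ k, ∫⁻ x, ENNReal.ofReal (‖D i (M (κ (k + e i))) x‖ ^ 2) ∂μ ≤
        ENNReal.ofReal ((1 / 2 : ℝ) ^ k) := by
      intro k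
      rw [← ofReal_integral_eq_lintegral_ofReal (hint _) (ae_of_all _ fun x => by positivity)]
      apply ENNReal.ofReal_le_ofReal
      refine (hκ2 (k + e i) i (by simp)).trans ?_
      exact pow_le_pow_of_le_one (by norm_num) (by norm_num) (Nat.le_add_right _ _)
    refine ne_top_of_le_ne_top ?_ (ENNReal.tsum_le_tsum h2)
    rw [← ENNReal.ofReal_tsum_of_nonneg (fun k => by positivity)
      (summable_geometric_of_lt_one (by norm_num) (by norm_num))]
    exact ENNReal.ofReal_ne_top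
  rw [← lintegral_tsum (fun k => ((hmeas _).ennreal_ofReal).aemeasurable)] at hsum
  have hae := ae_lt_top (Measurable.ennreal_tsum fun k =>
    (hmeas (M (κ (k + e i)))).ennreal_ofReal) hsum
  filter_upwards [hae] with x hx
  have h3 := ENNReal.tendsto_atTop_zero_of_tsum_ne_top hx.ne
  have h4 : Tendsto (fun k => ‖D i (M (κ (k + e i))) x‖ ^ 2) atTop (𝓝 0) := by
    have h5 := (ENNReal.tendsto_toReal ENNReal.zero_ne_top).comp h3
    rw [ENNReal.toReal_zero] at h5
    refine h5.congr fun k => ?_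
    exact ENNReal.toReal_ofReal (by positivity)
  have h6 : Tendsto (fun k => ‖D i (M (κ (k + e i))) x‖) atTop (𝓝 0) := by
    have h7 := h4.sqrt
    rw [Real.sqrt_zero] at h7
    refine h7.congr fun k => ?_
    exact Real.sqrt_sq (norm_nonneg _)
  have h8 := tendsto_zero_iff_norm_tendsto_zero.2 h6
  exact (tendsto_add_atTop_iff_nat (f := fun k => D i (M (κ k)) x) (e i)).1 h8

end Pool.Agent.PJN
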