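import Pool.Agent.PJN.Defs

set_option autoImplicit false

/-!
# PJN/Lim: compactness of the joinings (Prokhorov's theorem, and approximation in `L¹`)
-/

namespace Pool.Agent.PJN

open MeasureTheory Filter Topology Pool.Agent.VINO

section aux

variable {X : Type} [MeasurableSpace X] {ι : Type} [Fintype ι]

/-- the product of bounded measurable functions of the coordinates -/
theorem lim_bdd_prod {g : ι → X → ℂ} (s : Finset ι) (hg : ∀ i, Bdd (g i)) :
    Bdd fun x : ι → X => ∏ i ∈ s, g i (x i) := by
  classical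
  choose hm M hM using hg
  refine ⟨?_, ∏ i ∈ s, M i, fun x => ?_⟩
  · exact Finset.measurable_prod _ fun i _ => (hm i).comp (measurable_pi_apply i)
  · rw [norm_prod]
    exact Finset.prod_le_prod (fun i _ => norm_nonneg _) fun i _ => hM i _

theorem lim_bdd_integrable {Y : Type} [MeasurableSpace Y] (ν : Measure Y) [IsFiniteMeasure ν]
    {f : Y → ℂ} (hf : Bdd f) : Integrable f ν := by
  obtain ⟨hm, M, hM⟩ := hf
  exact Integrable.of_bound hm.aestronglyMeasurable M (Eventually.of_forall hM)

/-- replacing one factor -/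
theorem lim_replace {μ : Measure X} [IsProbabilityMeasure μ] [DecidableEq ι] {g : ι → X → ℂ}
    (hg : ∀ i, Bdd (g i)) (i : ι) {H : X → ℂ} (hH : Bdd H) {C : ℝ} (hC0 : 0 ≤ C)
    (hC : ∀ x : ι → X, ‖∏ j ∈ Finset.univ.erase i, g j (x j)‖ ≤ C) (Q : Measure (ι → X))
    [IsProbabilityMeasure Q] (hQ : Q.map (fun x => x i) = μ) :
    ‖(∫ x, ∏ j, g j (x j) ∂Q) - ∫ x, ∏ j, (Function.update g i H) j (x j) ∂Q‖ ≤
      C * ∫ x, ‖g i x - H x‖ ∂μ := by
  have hg' : ∀ j, Bdd (Function.update g i H j) := by
    intro j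
    by_cases h : j = i
    · subst h; simpa using hH
    · rw [Function.update_of_ne h]; exact hg j
  have e1 : ∀ x : ι → X, ∏ j, g j (x j) = g i (x i) * ∏ j ∈ Finset.univ.erase i, g j (x j) :=
    fun x => (Finset.mul_prod_erase _ _ (Finset.mem_univ i)).symm
  have e2 : ∀ x : ι → X, ∏ j, (Function.update g i H) j (x j) =
      H (x i) * ∏ j ∈ Finset.univ.erase i, g j (x j) := by
    intro x
    rw [← Finset.mul_prod_erase _ _ (Finset.mem_univ i), Function.update_self]
    congr 1
    apply Finset.prod_congr rfl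
    intro j hj
    rw [Function.update_of_ne (Finset.ne_of_mem_erase hj)]
  have i1 := lim_bdd_integrable Q (lim_bdd_prod Finset.univ hg)
  have i2 := lim_bdd_integrable Q (lim_bdd_prod Finset.univ hg')
  rw [← integral_sub i1 i2]
  have hsub : Bdd fun x : X => g i x - H x := by
    obtain ⟨m1, M1, h1⟩ := hg i
    obtain ⟨m2, M2, h2⟩ := hH
    exact ⟨m1.sub m2, M1 + M2, fun x => (norm_sub_le _ _).trans (add_le_add (h1 x) (h2 x))⟩
  have i3 : Integrable (fun x : ι → X => ‖g i (x i) - H (x i)‖) Q := by
    apply Integrable.norm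
    apply lim_bdd_integrable
    obtain ⟨m1, M1, h1⟩ := hsub
    exact ⟨m1.comp (measurable_pi_apply i), M1, fun x => h1 _⟩
  calc ‖∫ x, (∏ j, g j (x j) - ∏ j, (Function.update g i H) j (x j)) ∂Q‖
      ≤ ∫ x, ‖∏ j, g j (x j) - ∏ j, (Function.update g i H) j (x j)‖ ∂Q :=
        norm_integral_le_integral_norm _
    _ ≤ ∫ x, C * ‖g i (x i) - H (x i)‖ ∂Q := by
        apply integral_mono (i1.sub i2).norm (i3.const_mul C)
        intro x
        show ‖∏ j, g j (x j) - ∏ j, (Function.update g i H) j (x j)‖ ≤ C * ‖g i (x i) - H (x i)‖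
        rw [e1, e2, ← sub_mul, norm_mul, mul_comm]
        exact mul_le_mul_of_nonneg_right (hC x) (norm_nonneg _)
    _ = C * ∫ x, ‖g i x - H x‖ ∂μ := by
        rw [integral_const_mul, ← hQ, integral_map (measurable_pi_apply i).aemeasurable]
        exact (hsub.1.norm).aestronglyMeasurable

end aux

theorem exists_lim {X : Type} [MeasurableSpace X] [StandardBorelSpace X] (μ : Measure X)
    [IsProbabilityMeasure μ] {ι : Type} [Fintype ι] (P : ℕ → Measure (ι → X))
    (hP : ∀ N, IsProbabilityMeasure (P N)) (hm : ∀ N i, (P N).map (fun x => x i) = μ)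
    (U : Ultrafilter ℕ) :
    ∃ L : Measure (ι → X), IsProbabilityMeasure L ∧ (∀ i, L.map (fun x => x i) = μ) ∧
      ∀ g : ι → X → ℂ, (∀ i, Bdd (g i)) →
        Tendsto (fun N => ∫ x, ∏ i, g i (x i) ∂(P N)) U (𝓝 (∫ x, ∏ i, g i (x i) ∂L)) := by
  classical
  letI := upgradeStandardBorel X
  -- the sequence of probability measures
  obtain ⟨Q, hQ⟩ : ∃ Q : ℕ → ProbabilityMeasure (ι → X), ∀ N, (Q N : Measure (ι → X)) = P N :=
    ⟨fun N => ⟨P N, hP N⟩, fun _ => rfl⟩
  -- tightness
  have htight : IsTightMeasureSet {((ν : ProbabilityMeasure (ι → X)) : Measure (ι → X)) |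
      ν ∈ Set.range Q} := by
    rw [isTightMeasureSet_iff_exists_isCompact_measure_compl_le]
    intro ε hε
    have h1 : IsTightMeasureSet {μ} := isTightMeasureSet_singleton
    rw [isTightMeasureSet_iff_exists_isCompact_measure_compl_le] at h1
    have hε' : (0 : ENNReal) < ε / (Fintype.card ι + 1 : ℕ) :=
      ENNReal.div_pos hε.ne' (ENNReal.natCast_ne_top _)
    obtain ⟨K, hK, hKμ⟩ := h1 _ hε'
    refine ⟨Set.pi Set.univ fun _ => K, isCompact_univ_pi fun _ => hK, ?_⟩
    rintro _ ⟨ν, ⟨N, rfl⟩, rfl⟩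
    rw [hQ]
    have h2 : (Set.pi Set.univ fun _ : ι => K)ᶜ = ⋃ i, {x : ι → X | x i ∈ Kᶜ} := by
      ext x; simp
    have h3 : ∀ i, P N {x : ι → X | x i ∈ Kᶜ} = μ Kᶜ := by
      intro i
      rw [← hm N i, Measure.map_apply (measurable_pi_apply i) hK.measurableSet.compl]
      rfl
    calc P N (Set.pi Set.univ fun _ : ι => K)ᶜ ≤ ∑ i, P N {x : ι → X | x i ∈ Kᶜ} := by
          rw [h2]; exact measure_iUnion_fintype_le _ _
      _ = (Fintype.card ι : ENNReal) * μ Kᶜ := by
          simp only [h3, Finset.sum_const, Finset.card_univ, nsmul_eq_mul]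
      _ ≤ ((Fintype.card ι + 1 : ℕ) : ENNReal) * (ε / (Fintype.card ι + 1 : ℕ)) := by
          gcongr
          · exact Nat.le_succ _
          · exact hKμ μ rfl
      _ = ε := ENNReal.mul_div_cancel (by simp) (ENNReal.natCast_ne_top _)
  have hcomp := isCompact_closure_of_isTightMeasureSet htight
  obtain ⟨L, -, hL⟩ : ∃ L ∈ closure (Set.range Q), (U.map Q : Filter _) ≤ 𝓝 L := by
    apply hcomp.ultrafilter_le_nhds
    rw [le_principal_iff]
    show Q ⁻¹' closure (Set.range Q) ∈ (U : Filter ℕ)
    exact univ_mem' fun N => subset_closure ⟨N, rfl⟩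
  have hlim : Tendsto Q U (𝓝 L) := hL
  have hmarg : ∀ i, (L : Measure (ι → X)).map (fun x => x i) = μ := by
    intro i
    have h1 := ProbabilityMeasure.tendsto_map_of_tendsto_of_continuous Q L hlim
      (continuous_apply i : Continuous fun x : ι → X => x i)
    have h2 : ∀ N, (Q N).map (continuous_apply i : Continuous fun x : ι → X => x i).measurable.aemeasurable =
        (⟨μ, inferInstance⟩ : ProbabilityMeasure X) := by
      intro N
      apply Subtype.ext
      show ((Q N : Measure (ι → X))).map (fun x => x i) = μ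
      rw [hQ, hm]
    simp only [h2] at h1
    have h3 := tendsto_nhds_unique h1 tendsto_const_nhds
    have h4 := congrArg (fun ν : ProbabilityMeasure X => (ν : Measure X)) h3
    exact h4
  refine ⟨L, inferInstance, hmarg, ?_⟩
  -- continuous factors
  have hmain : ∀ s : Finset ι, ∀ g : ι → X → ℂ, (∀ i, Bdd (g i)) → (∀ i, i ∉ s → Continuous (g i)) →
      Tendsto (fun N => ∫ x, ∏ i, g i (x i) ∂(P N)) U (𝓝 (∫ x, ∏ i, g i (x i) ∂(L : Measure (ι → X)))) := by
    intro s
    induction s using Finset.induction_on with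
    | empty =>
      intro g hg hc
      have hcont : Continuous fun x : ι → X => ∏ i, g i (x i) :=
        continuous_finsetProd _ fun i _ => (hc i (Finset.notMem_empty i)).comp (continuous_apply i)
      obtain ⟨-, M, hM⟩ := lim_bdd_prod (X := X) (g := g) Finset.univ hg
      have := (ProbabilityMeasure.tendsto_iff_forall_integral_rclike_tendsto ℂ).1 hlim
        (BoundedContinuousFunction.ofNormedAddCommGroup _ hcont M hM)
      simpa [hQ] using this
    | insert i s hi ih =>
      intro g hg hc
      obtain ⟨C, hC0, hC⟩ : ∃ C : ℝ, 0 < C ∧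
          ∀ x : ι → X, ‖∏ j ∈ Finset.univ.erase i, g j (x j)‖ ≤ C := by
        obtain ⟨-, M, hM⟩ := lim_bdd_prod (X := X) (g := g) (Finset.univ.erase i) hg
        exact ⟨max M 1, lt_max_of_lt_right one_pos, fun x => (hM x).trans (le_max_left _ _)⟩
      rw [Metric.tendsto_nhds]
      intro ε hε
      have hgi : Integrable (g i) μ := lim_bdd_integrable μ (hg i)
      obtain ⟨H, hH, -⟩ := hgi.exists_boundedContinuous_integral_sub_le
        (ε := ε / (3 * C)) (by positivity)
      have hHb : Bdd (H : X → ℂ) := ⟨H.continuous.measurable, ‖H‖, H.norm_coe_le_norm⟩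
      have hg' : ∀ j, Bdd (Function.update g i H j) := by
        intro j
        by_cases h : j = i
        · subst h; simpa using hHb
        · rw [Function.update_of_ne h]; exact hg j
      have hlim' := ih (Function.update g i H) hg' (by
        intro j hj
        by_cases h : j = i
        · subst h; simpa using H.continuous
        · rw [Function.update_of_ne h]
          exact hc j (by simp [h, hj]))
      rw [Metric.tendsto_nhds] at hlim'
      have hεC : C * (ε / (3 * C)) = ε / 3 := by field_simp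
      filter_upwards [hlim' (ε / 3) (by positivity)] with N hN
      have h1 := lim_replace (μ := μ) hg i hHb hC0.le hC (P N) (hm N i)
      have h2 := lim_replace (μ := μ) hg i hHb hC0.le hC (L : Measure (ι → X)) (hmarg i)
      have h1' := h1.trans (mul_le_mul_of_nonneg_left hH hC0.le)
      have h2' := h2.trans (mul_le_mul_of_nonneg_left hH hC0.le)
      rw [hεC, ← dist_eq_norm] at h1' h2'
      calc dist (∫ x, ∏ i, g i (x i) ∂(P N)) (∫ x, ∏ i, g i (x i) ∂(L : Measure (ι → X)))
          ≤ dist (∫ x, ∏ i, g i (x i) ∂(P N)) (∫ x, ∏ j, (Function.update g i H) j (x j) ∂(P N)) +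
            dist (∫ x, ∏ j, (Function.update g i H) j (x j) ∂(P N))
              (∫ x, ∏ j, (Function.update g i H) j (x j) ∂(L : Measure (ι → X))) +
            dist (∫ x, ∏ j, (Function.update g i H) j (x j) ∂(L : Measure (ι → X)))
              (∫ x, ∏ i, g i (x i) ∂(L : Measure (ι → X))) := dist_triangle4 _ _ _ _
        _ < ε / 3 + ε / 3 + ε / 3 := by
            rw [dist_comm (∫ x, ∏ j, (Function.update g i H) j (x j) ∂(L : Measure (ι → X)))]
            have := hN
            linarith
        _ = ε := by ring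
  intro g hg
  exact hmain Finset.univ g hg fun i hi => absurd (Finset.mem_univ i) hi

end Pool.Agent.PJN
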