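import Pool.Agent.PJN.Joi
import Pool.Agent.PJN.Lim

set_option autoImplicit false

/-!
# PJN/L2: convergence in mean square

PROOF. `tendsto` along `atTop` follows from `tendsto` along all ultrafilters `U ≤ atTop` (`Filter.tendsto_iff_ultrafilter`); shift `N` by one
(`tendsto_add_atTop_iff_nat 1`). By `exists_lim` (with `lam_prob`, `lam_marg`), `joi`: for all `Bdd` `g`: `∫ ∏ g d lam → ∏ i ∫ g i dμ` along `U`
(`integral_fintype_prod_eq_prod`). With `P = ∏ ∫ f j`, `A N x = av (N+1) ∏ f j (T^(a (n+j)) x)`: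
`∫ ‖A N - P‖² = ∫ A N conj (A N) - P conj (∫ A N) - conj P (∫ A N) + P conj P`, where `∫ A N conj (A N) dμ = ∫ ∏ g d lam` with
`g (inl j) = f j`, `g (inr j) = conj f j` (limit `P conj P`), `∫ A N dμ = ∫ ∏ g d lam` with `g (inl j) = f j`, `g (inr j) = 1` (limit `P`).
-/

namespace Pool.Agent.PJN

open MeasureTheory Filter Topology Pool.Agent.VINO

private theorem bdd_int {X : Type} [MeasurableSpace X] {μ : Measure X} [IsProbabilityMeasure μ]
    {f : X → ℂ} (hf : Bdd f) : Integrable f μ := by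
  obtain ⟨h1, M, hM⟩ := hf
  exact Integrable.of_bound h1.aestronglyMeasurable M (Eventually.of_forall hM)

private theorem bdd_mul {X : Type} [MeasurableSpace X] {f g : X → ℂ} (hf : Bdd f) (hg : Bdd g) :
    Bdd fun x => f x * g x := by
  obtain ⟨h1, M, hM⟩ := hf
  obtain ⟨h2, M', hM'⟩ := hg
  refine ⟨h1.mul h2, M * M', fun x => ?_⟩
  rw [norm_mul]
  exact mul_le_mul (hM x) (hM' x) (norm_nonneg _) ((norm_nonneg _).trans (hM x))

private theorem bdd_conj {X : Type} [MeasurableSpace X] {f : X → ℂ} (hf : Bdd f) :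
    Bdd fun x => (starRingEnd ℂ) (f x) := by
  obtain ⟨h1, M, hM⟩ := hf
  refine ⟨Complex.continuous_conj.measurable.comp h1, M, fun x => ?_⟩
  rw [RCLike.norm_conj]
  exact hM x

private theorem bdd_comp {X : Type} [MeasurableSpace X] {f : X → ℂ} (hf : Bdd f) {S : X → X}
    (hS : Measurable S) : Bdd fun x => f (S x) := by
  obtain ⟨h1, M, hM⟩ := hf
  exact ⟨h1.comp hS, M, fun x => hM _⟩

private theorem bdd_prod {X : Type} [MeasurableSpace X] {ι : Type} (s : Finset ι) {f : ι → X → ℂ}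
    (hf : ∀ i, Bdd (f i)) : Bdd fun x => ∏ i ∈ s, f i x := by
  classical
  induction s using Finset.induction_on with
  | empty =>
    refine ⟨?_, 1, fun x => ?_⟩
    · simp only [Finset.prod_empty]
      exact measurable_const
    · simp
  | insert i s hi ih =>
    have h := bdd_mul (hf i) ih
    have e : (fun x => ∏ j ∈ insert i s, f j x) = fun x => f i x * ∏ j ∈ s, f j x := by
      funext x
      rw [Finset.prod_insert hi]
    rw [e]
    exact h

private theorem dbl {X : Type} [MeasurableSpace X] {μ : Measure X} [IsProbabilityMeasure μ]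
    (N : ℕ) {φ ψ : ℕ → X → ℂ} (hφ : ∀ n, Bdd (φ n)) (hψ : ∀ n, Bdd (ψ n)) :
    av N (fun n => av N fun m => ∫ x, φ n x * ψ m x ∂μ) =
      ∫ x, av N (fun n => φ n x) * av N (fun m => ψ m x) ∂μ := by
  have hi : ∀ n m, Integrable (fun x => φ n x * ψ m x) μ := fun n m =>
    bdd_int (bdd_mul (hφ n) (hψ m))
  have h : ∀ x, av N (fun n => φ n x) * av N (fun m => ψ m x) =
      (N : ℂ)⁻¹ * ∑ n ∈ Finset.Icc 1 N, ((N : ℂ)⁻¹ * ∑ m ∈ Finset.Icc 1 N, φ n x * ψ m x) := by
    intro x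
    unfold av
    calc (N : ℂ)⁻¹ * (∑ n ∈ Finset.Icc 1 N, φ n x) * ((N : ℂ)⁻¹ * ∑ m ∈ Finset.Icc 1 N, ψ m x) =
        (N : ℂ)⁻¹ * ((N : ℂ)⁻¹ *
          ((∑ n ∈ Finset.Icc 1 N, φ n x) * ∑ m ∈ Finset.Icc 1 N, ψ m x)) := by ring
      _ = _ := by rw [Finset.sum_mul_sum, Finset.mul_sum (f := fun n => ∑ m ∈ Finset.Icc 1 N,
          φ n x * ψ m x)]
  simp only [h]
  rw [integral_const_mul, integral_finsetSum _ fun n _ =>
    (integrable_finsetSum _ fun m _ => hi n m).const_mul _]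
  unfold av
  congr 1
  refine Finset.sum_congr rfl fun n _ => ?_
  rw [integral_const_mul, integral_finsetSum _ fun m _ => hi n m]

private theorem av_one (N : ℕ) : av (N + 1) (fun _ => (1 : ℂ)) = 1 := by
  unfold av
  have hN0 : ((N + 1 : ℕ) : ℂ) ≠ 0 := by exact_mod_cast (Nat.succ_ne_zero N)
  rw [Finset.sum_const, Nat.card_Icc, nsmul_eq_mul, mul_one, Nat.add_sub_cancel,
    inv_mul_cancel₀ hN0]

theorem l2_lim {c : ℝ} (hc0 : 0 < c) (hc1 : c < 1 / 2) {X : Type} [MeasurableSpace X]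
    [StandardBorelSpace X] {μ : Measure X} [IsProbabilityMeasure μ] {T : X → X} (hT : Ergodic T μ)
    (hpid : PID μ T) {r : ℕ} (f : Fin (r + 1) → X → ℂ) (hf : ∀ j, Bdd (f j)) :
    Tendsto (fun N => ∫ x, ‖av N (fun n => ∏ j, f j (T^[a c (n + j.1)] x)) -
      ∏ j, ∫ y, f j y ∂μ‖ ^ 2 ∂μ) atTop (𝓝 0) := by
  have hmp : MeasurePreserving T μ μ := hT.toMeasurePreserving
  obtain ⟨Q, hQ⟩ : ∃ Q : ℂ, Q = ∏ j, ∫ y, f j y ∂μ := ⟨_, rfl⟩
  rw [← hQ]
  set φ : ℕ → X → ℂ := fun n x => ∏ j, f j (T^[a c (n + j.1)] x) with hφ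
  have hφb : ∀ n, Bdd (φ n) := fun n => bdd_prod _ fun j =>
    bdd_comp (hf j) (hmp.measurable.iterate _)
  have hcb : ∀ n, Bdd fun x => (starRingEnd ℂ) (φ n x) := fun n => bdd_conj (hφb n)
  set A : ℕ → X → ℂ := fun N x => av N (fun n => φ n x) with hA
  have hAconj : ∀ N x, av N (fun n => (starRingEnd ℂ) (φ n x)) = (starRingEnd ℂ) (A N x) := by
    intro N x
    simp only [hA]
    unfold av
    rw [map_mul, map_inv₀, Complex.conj_natCast, map_sum]
  show Tendsto (fun N => ∫ x, ‖A N x - Q‖ ^ 2 ∂μ) atTop (𝓝 0)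
  rw [← tendsto_add_atTop_iff_nat 1, Filter.tendsto_iff_ultrafilter]
  intro U hU
  obtain ⟨L, hLp, hLm, hLint⟩ := exists_lim μ (fun N => lam c μ T r N)
    (fun N => lam_prob hmp r N) (fun N i => lam_marg hmp r N i) U
  have hL := joi hc0 hc1 hT hpid hU hLp hLm hLint
  have hpi : ∀ g : Fin (r + 1) ⊕ Fin (r + 1) → X → ℂ,
      ∫ x, ∏ i, g i (x i) ∂L = (∏ j, ∫ y, g (Sum.inl j) y ∂μ) * ∏ j, ∫ y, g (Sum.inr j) y ∂μ := by
    intro g
    rw [hL, integral_fintype_prod_eq_prod, Fintype.prod_sum_type]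
  -- the second moment
  have h1 : Tendsto (fun N => ∫ x, A (N + 1) x * (starRingEnd ℂ) (A (N + 1) x) ∂μ) U
      (𝓝 (Q * (starRingEnd ℂ) Q)) := by
    have hg : ∀ i, Bdd ((Sum.elim f fun j x => (starRingEnd ℂ) (f j x)) i) := by
      rintro (j | j)
      · exact hf j
      · exact bdd_conj (hf j)
    have h := hLint (Sum.elim f fun j x => (starRingEnd ℂ) (f j x)) hg
    rw [hpi] at h
    have e1 : (∏ j, ∫ y, (Sum.elim f fun j x => (starRingEnd ℂ) (f j x)) (Sum.inl j) y ∂μ) *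
        ∏ j, ∫ y, (Sum.elim f fun j x => (starRingEnd ℂ) (f j x)) (Sum.inr j) y ∂μ =
        Q * (starRingEnd ℂ) Q := by
      simp only [Sum.elim_inl, Sum.elim_inr, integral_conj]
      rw [hQ, map_prod]
    rw [e1] at h
    refine h.congr fun N => ?_
    rw [lam_int hmp r N _ hg]
    have e2 : ∀ m x, ∏ j, (Sum.elim f fun j x => (starRingEnd ℂ) (f j x)) (Sum.inr j)
        (T^[a c (m + j.1)] x) = (starRingEnd ℂ) (φ m x) := by
      intro m x
      simp only [Sum.elim_inr, hφ, map_prod]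
    simp only [e2]
    have e3 := dbl (μ := μ) (N + 1) hφb hcb
    simp only [hAconj] at e3
    exact e3
  -- the first moment
  have h2 : Tendsto (fun N => ∫ x, A (N + 1) x ∂μ) U (𝓝 Q) := by
    have hone : Bdd fun _ : X => (1 : ℂ) := ⟨measurable_const, 1, fun x => by simp⟩
    obtain ⟨g2, hg2⟩ : ∃ g2 : Fin (r + 1) ⊕ Fin (r + 1) → X → ℂ,
        g2 = Sum.elim f fun (_ : Fin (r + 1)) (_ : X) => (1 : ℂ) := ⟨_, rfl⟩
    have hl2 : ∀ j, g2 (Sum.inl j) = f j := fun j => by rw [hg2]; rfl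
    have hr2 : ∀ j, g2 (Sum.inr j) = fun _ => (1 : ℂ) := fun j => by rw [hg2]; rfl
    have hg : ∀ i, Bdd (g2 i) := by
      rintro (j | j)
      · rw [hl2]
        exact hf j
      · rw [hr2]
        exact hone
    have h := hLint g2 hg
    rw [hpi] at h
    have e1 : (∏ j, ∫ y, g2 (Sum.inl j) y ∂μ) * ∏ j, ∫ y, g2 (Sum.inr j) y ∂μ = Q := by
      simp only [hl2, hr2]
      rw [hQ]
      simp
    rw [e1] at h
    refine h.congr fun N => ?_
    rw [lam_int hmp r N _ hg]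
    have e3 := dbl (μ := μ) (N + 1) (ψ := fun _ _ => (1 : ℂ)) hφb (fun _ => hone)
    simp only [av_one, mul_one] at e3
    simp only [hl2, hr2, Finset.prod_const_one, mul_one]
    exact e3
  -- the conclusion
  have hAb : ∀ N, Bdd (A N) := by
    intro N
    have h3 : ∀ N, Measurable (A N) := fun N => by
      simp only [hA]
      unfold av
      exact (Finset.measurable_sum _ fun n _ => (hφb n).1).const_mul _
    choose M hM using fun n => (hφb n).2
    refine ⟨h3 N, ‖(N : ℂ)⁻¹‖ * ∑ n ∈ Finset.Icc 1 N, M n, fun x => ?_⟩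
    simp only [hA]
    unfold av
    rw [norm_mul]
    exact mul_le_mul_of_nonneg_left ((norm_sum_le _ _).trans
      (Finset.sum_le_sum fun n _ => hM n x)) (norm_nonneg _)
  have hform : ∀ N, ((∫ x, ‖A (N + 1) x - Q‖ ^ 2 ∂μ : ℝ) : ℂ) =
      (∫ x, A (N + 1) x * (starRingEnd ℂ) (A (N + 1) x) ∂μ) -
      (starRingEnd ℂ) Q * (∫ x, A (N + 1) x ∂μ) -
      Q * (starRingEnd ℂ) (∫ x, A (N + 1) x ∂μ) + Q * (starRingEnd ℂ) Q := by
    intro N
    rw [← integral_complex_ofReal]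
    have h3 : ∀ x, ((‖A (N + 1) x - Q‖ ^ 2 : ℝ) : ℂ) =
        A (N + 1) x * (starRingEnd ℂ) (A (N + 1) x) - (starRingEnd ℂ) Q * A (N + 1) x -
        Q * (starRingEnd ℂ) (A (N + 1) x) + Q * (starRingEnd ℂ) Q := by
      intro x
      push_cast
      rw [← Complex.mul_conj', map_sub]
      ring
    have i0 := bdd_int (μ := μ) (bdd_mul (hAb (N + 1)) (bdd_conj (hAb (N + 1))))
    have i1 : Integrable (fun x => (starRingEnd ℂ) Q * A (N + 1) x) μ :=
      (bdd_int (hAb (N + 1))).const_mul _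
    have i2 : Integrable (fun x => Q * (starRingEnd ℂ) (A (N + 1) x)) μ :=
      (bdd_int (bdd_conj (hAb (N + 1)))).const_mul _
    simp only [h3]
    have j1 : Integrable (fun x => A (N + 1) x * (starRingEnd ℂ) (A (N + 1) x) -
        (starRingEnd ℂ) Q * A (N + 1) x) μ := i0.sub i1
    have j2 : Integrable (fun x => A (N + 1) x * (starRingEnd ℂ) (A (N + 1) x) -
        (starRingEnd ℂ) Q * A (N + 1) x - Q * (starRingEnd ℂ) (A (N + 1) x)) μ := j1.sub i2
    rw [integral_add j2 (integrable_const _), integral_sub j1 i2, integral_sub i0 i1,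
      integral_const_mul, integral_const_mul, integral_conj]
    simp
  have hlimC : Tendsto (fun N => ((∫ x, ‖A (N + 1) x - Q‖ ^ 2 ∂μ : ℝ) : ℂ)) U (𝓝 0) := by
    simp only [hform]
    have h4 := (((h1.sub (h2.const_mul ((starRingEnd ℂ) Q))).sub
      (((Complex.continuous_conj.tendsto _).comp h2).const_mul Q)).add_const
        (Q * (starRingEnd ℂ) Q))
    have e4 : Q * (starRingEnd ℂ) Q - (starRingEnd ℂ) Q * Q - Q * (starRingEnd ℂ) Q +
        Q * (starRingEnd ℂ) Q = 0 := by ring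
    rw [e4] at h4
    exact h4
  have h5 := (Complex.continuous_re.tendsto _).comp hlimC
  simpa [Function.comp_def] using h5

end Pool.Agent.PJN
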