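import Pool.Agent.PJN.ExtA
import Pool.Agent.PJN.ExtF
import Pool.Agent.PJN.ExtT
import Pool.Agent.PJN.ExtK
import Pool.Agent.PJN.L2
import Pool.Agent.PJN.FinG
import Pool.Agent.VINO.KDen

set_option autoImplicit false

/-!
# PJN/ExtC: systems whose tail factor has the PID property
-/

namespace Pool.Agent.PJN

open MeasureTheory Filter Topology Pool.Agent.VINO

theorem l2_ext {c : ℝ} (hc0 : 0 < c) (hc1 : c < 1 / 2) {X : Type*} {𝒜 : MeasurableSpace X}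
    [m : MeasurableSpace X] {μ : Measure X} [IsProbabilityMeasure μ] {T : X → X}
    (hT : MeasurePreserving T μ μ) (h𝒜 : 𝒜 ≤ m) (hA : 𝒜.comap T ≤ 𝒜) (hgen : GenA T 𝒜 μ)
    {Y : Type} [MeasurableSpace Y] [StandardBorelSpace Y] {ν : Measure Y} [IsProbabilityMeasure ν]
    {S : Y → Y} (hS : Ergodic S ν) (hpid : PID ν S) {π : X → Y} (hπ : MeasurePreserving π μ ν)
    (hc : ∀ᵐ x ∂μ, π (T x) = S (π x))
    (htail : ∀ A : Set X, MeasurableSet[tailA T 𝒜] A →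
      ∃ B : Set Y, MeasurableSet B ∧ π ⁻¹' B =ᵐ[μ] A)
    (r : ℕ) (f : Fin (r + 1) → X → ℂ) (hf : ∀ j, Bdd (f j)) : L2C c μ T f := by
  have htm : tailA T 𝒜 ≤ m := by
    refine le_trans (iInf_le (fun n : ℕ => 𝒜.comap T^[n]) 0) ?_
    rw [Function.iterate_zero, MeasurableSpace.comap_id]
    exact h𝒜
  refine ext_l2 hT {h : X → ℂ | TypP T 𝒜 h ∨ ∃ k p, TypK T 𝒜 μ k p h} ?_ ?_ ?_ ?_ r f hf
  · exact ⟨fun _ => 0, Or.inl ⟨⟨measurable_const, 0, fun x => by rw [norm_zero]⟩,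
      @measurable_const _ _ _ (tailA T 𝒜) 0⟩⟩
  · rintro h (hh | ⟨k, p, hh⟩)
    · exact hh.1
    · exact hh.1
  · intro f hf ε hε
    obtain ⟨u, v, hu, hv, huv⟩ := kden hT h𝒜 hA hgen f hf ε hε
    exact ⟨u + v, add_mem (Submodule.subset_span (Or.inl hu))
      (Submodule.subset_span (Or.inr hv)), huv⟩
  · intro r f hf
    by_cases hall : ∀ j, TypP T 𝒜 (f j)
    · have h1 : ∀ j, ∃ h : Y → ℂ, Bdd h ∧ ∀ᵐ x ∂μ, f j x = h (π x) := fun j =>
        exists_factor htm hπ.measurable htail (f j) (hall j).2 (hall j).1.2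
      choose h hh he using h1
      exact l2_factor hT hS.toMeasurePreserving hπ hc f h (fun j => (hall j).1) hh he
        (l2_lim hc0 hc1 hS hpid h hh)
    · push Not at hall
      obtain ⟨j₀, hj₀⟩ := hall
      have hex : ∀ j, ∃ q : ℕ × ℕ, TypP T 𝒜 (f j) ∨ TypK T 𝒜 μ q.1 q.2 (f j) := by
        intro j
        rcases hf j with h | ⟨k, p, h⟩
        · exact ⟨(0, 0), Or.inl h⟩
        · exact ⟨(k, p), Or.inr h⟩
      choose q hq using hex
      obtain ⟨k, hk⟩ : ∃ k, k = ∑ j, (q j).1 := ⟨_, rfl⟩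
      obtain ⟨p, hp⟩ : ∃ p, p = k + ∑ j, (q j).2 := ⟨_, rfl⟩
      have hkp : ∀ j, TypP T 𝒜 (f j) ∨ TypK T 𝒜 μ k p (f j) := by
        intro j
        rcases hq j with h | h
        · exact Or.inl h
        · refine Or.inr (typK_mono hT h𝒜 hA h ?_ ?_)
          · rw [hk]
            exact Finset.single_le_sum (f := fun j => (q j).1) (fun _ _ => Nat.zero_le _)
              (Finset.mem_univ j)
          · have h1 : (q j).2 ≤ ∑ j, (q j).2 :=
              Finset.single_le_sum (f := fun j => (q j).2) (fun _ _ => Nat.zero_le _)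
                (Finset.mem_univ j)
            omega
      have hj₀K : TypK T 𝒜 μ k p (f j₀) := (hkp j₀).resolve_left hj₀
      exact l2_typK hc0 (by linarith) hT h𝒜 hA f k p hkp ⟨j₀, hj₀K⟩

theorem main_ext {c : ℝ} (hc0 : 0 < c) (hc1 : c < 1 / 2) {X : Type*} {𝒜 : MeasurableSpace X}
    [m : MeasurableSpace X] {μ : Measure X} [IsProbabilityMeasure μ] {T : X → X}
    (hT : MeasurePreserving T μ μ) (h𝒜 : 𝒜 ≤ m) (hA : 𝒜.comap T ≤ 𝒜) (hgen : GenA T 𝒜 μ)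
    {Y : Type} [MeasurableSpace Y] [StandardBorelSpace Y] {ν : Measure Y} [IsProbabilityMeasure ν]
    {S : Y → Y} (hS : Ergodic S ν) (hpid : PID ν S) {π : X → Y} (hπ : MeasurePreserving π μ ν)
    (hc : ∀ᵐ x ∂μ, π (T x) = S (π x))
    (htail : ∀ A : Set X, MeasurableSet[tailA T 𝒜] A →
      ∃ B : Set Y, MeasurableSet B ∧ π ⁻¹' B =ᵐ[μ] A)
    {R : ℝ} (g : X → Metric.closedBall (0 : ℂ) R) (hg : Measurable g) (M : ℕ → ℕ)
    (hM : StrictMono M) :
    ∃ κ : ℕ → ℕ, StrictMono κ ∧ ∀ᵐ x ∂μ, ∀ ω : ℤ → Metric.closedBall (0 : ℂ) R,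
      (∀ n : ℕ, 1 ≤ n → ω n = g (T^[a c n] x)) →
      ∀ F : (ℤ → Metric.closedBall (0 : ℂ) R) → ℂ, Continuous F →
        Tendsto (fun k => av (M (κ k)) fun n => F fun i => ω (i + n)) atTop
          (𝓝 (∫ w, F w ∂(Measure.infinitePi fun _ : ℤ => μ.map g))) :=
  fin_core hT.measurable (fun r f hf => l2_ext hc0 hc1 hT h𝒜 hA hgen hS hpid hπ hc htail r f hf) g hg
    M hM

end Pool.Agent.PJN
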