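import Pool.Agent.PJN.L2
import Pool.Agent.PJN.FurL
import Pool.Agent.PJN.Sub

set_option autoImplicit false

/-!
# PJN/Fin: the theorem
-/

namespace Pool.Agent.PJN

open MeasureTheory Filter Topology Pool.Agent.VINO

private theorem pf_av_congr {N : ℕ} {u v : ℕ → ℂ} (h : ∀ n, 1 ≤ n → u n = v n) :
    av N u = av N v := by
  unfold av
  congr 1
  exact Finset.sum_congr rfl fun n hn => h n (Finset.mem_Icc.1 hn).1

private theorem pf_av_le {N : ℕ} {u : ℕ → ℂ} {C : ℝ} (hC : 0 ≤ C) (h : ∀ n, ‖u n‖ ≤ C) :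
    ‖av N u‖ ≤ C := by
  unfold av
  rw [norm_mul, norm_inv, Complex.norm_natCast]
  rcases Nat.eq_zero_or_pos N with h0 | h0
  · subst h0
    simpa using hC
  · have hN : (0 : ℝ) < N := by exact_mod_cast h0
    have h1 : ‖∑ n ∈ Finset.Icc 1 N, u n‖ ≤ N * C := by
      refine (norm_sum_le _ _).trans ?_
      refine (Finset.sum_le_sum fun n _ => h n).trans (le_of_eq ?_)
      rw [Finset.sum_const, Nat.card_Icc, Nat.add_sub_cancel, nsmul_eq_mul]
    calc (N : ℝ)⁻¹ * ‖∑ n ∈ Finset.Icc 1 N, u n‖ ≤ (N : ℝ)⁻¹ * (N * C) :=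
          mul_le_mul_of_nonneg_left h1 (by positivity)
      _ = C := by field_simp

private theorem pf_mono_le {R : ℝ} (hR : 0 ≤ R) (p : ℕ × ℕ) (t : Metric.closedBall (0 : ℂ) R) :
    ‖mono p (t : ℂ)‖ ≤ R ^ p.1 * R ^ p.2 := by
  change ‖(t : ℂ) ^ p.1 * (starRingEnd ℂ (t : ℂ)) ^ p.2‖ ≤ _
  rw [norm_mul, norm_pow, norm_pow, RCLike.norm_conj]
  have h0 : 0 ≤ ‖(t : ℂ)‖ := norm_nonneg _
  have h1 : ‖(t : ℂ)‖ ≤ R := mem_closedBall_zero_iff.1 t.2
  exact mul_le_mul (pow_le_pow_left₀ h0 h1 _) (pow_le_pow_left₀ h0 h1 _) (by positivity)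
    (pow_nonneg hR _)

theorem main {c : ℝ} (hc0 : 0 < c) (hc1 : c < 1 / 2) {X : Type} [MeasurableSpace X]
    [StandardBorelSpace X] {μ : Measure X} [IsProbabilityMeasure μ] {T : X → X} (hT : Ergodic T μ)
    (hpid : PID μ T) {R : ℝ} (g : X → Metric.closedBall (0 : ℂ) R) (hg : Measurable g) (M : ℕ → ℕ)
    (hM : StrictMono M) :
    ∃ κ : ℕ → ℕ, StrictMono κ ∧ ∀ᵐ x ∂μ, ∀ ω : ℤ → Metric.closedBall (0 : ℂ) R,
      (∀ n : ℕ, 1 ≤ n → ω n = g (T^[a c n] x)) →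
      ∀ F : (ℤ → Metric.closedBall (0 : ℂ) R) → ℂ, Continuous F →
        Tendsto (fun k => av (M (κ k)) fun n => F fun i => ω (i + n)) atTop
          (𝓝 (∫ w, F w ∂(Measure.infinitePi fun _ : ℤ => μ.map g))) := by
  classical
  have hR : 0 ≤ R := by
    obtain ⟨x⟩ := μ.nonempty_of_neZero
    exact Metric.nonempty_closedBall.1 ⟨_, (g x).2⟩
  have hTm : ∀ k, Measurable (T^[k]) := fun k => hT.measurable.iterate k
  have hmono : ∀ p : ℕ × ℕ, Measurable fun x => mono p (g x : ℂ) := fun p =>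
    (mono p).continuous.measurable.comp (measurable_subtype_coe.comp hg)
  have hbdd : ∀ p : ℕ × ℕ, Bdd fun x => mono p (g x : ℂ) := fun p =>
    ⟨hmono p, _, fun x => pf_mono_le hR p (g x)⟩
  let D : (Σ r : ℕ, Fin (r + 1) → ℕ × ℕ) → ℕ → X → ℂ := fun i N x =>
    (av N fun n => ∏ j, mono (i.2 j) (g (T^[a c (n + j.1)] x) : ℂ)) -
      ∏ j, ∫ y, mono (i.2 j) (g y : ℂ) ∂μ
  have hDm : ∀ i N, Measurable (D i N) := by
    intro i N
    refine Measurable.sub ?_ measurable_const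
    unfold av
    refine Measurable.mul measurable_const (Finset.measurable_sum _ fun n _ =>
      Finset.measurable_prod _ fun j _ => ?_)
    exact (hmono (i.2 j)).comp (hTm _)
  have hDb : ∀ i, ∃ C : ℝ, ∀ N x, ‖D i N x‖ ≤ C := by
    intro i
    refine ⟨(∏ j, R ^ (i.2 j).1 * R ^ (i.2 j).2) + ‖∏ j, ∫ y, mono (i.2 j) (g y : ℂ) ∂μ‖,
      fun N x => ?_⟩
    refine (norm_sub_le _ _).trans (add_le_add ?_ le_rfl)
    refine pf_av_le (Finset.prod_nonneg fun j _ => by positivity) fun n => ?_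
    rw [norm_prod]
    exact Finset.prod_le_prod (fun j _ => norm_nonneg _) fun j _ => pf_mono_le hR _ _
  obtain ⟨κ, hκ, hx⟩ := exists_sub μ D hDm hDb
    (fun i => l2_lim hc0 hc1 hT hpid (fun j x => mono (i.2 j) (g x : ℂ)) fun j => hbdd _) M hM
  refine ⟨κ, hκ, ?_⟩
  filter_upwards [hx] with x hx ω hω F hF
  have : IsProbabilityMeasure (μ.map g) := Measure.isProbabilityMeasure_map hg.aemeasurable
  have hl : map (fun k => M (κ k)) atTop ≤ atTop := (hM.comp hκ).tendsto_atTop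
  have key := furM hl ω (μ.map g) (fun r p => ?_) F hF
  · exact tendsto_map'_iff.1 key
  · rw [tendsto_map'_iff]
    have h1 := hx ⟨r, p⟩
    have h2 : Tendsto (fun k => D ⟨r, p⟩ (M (κ k)) x + ∏ j, ∫ y, mono (p j) (g y : ℂ) ∂μ) atTop
        (𝓝 (∏ j, ∫ t, mono (p j) (t : ℂ) ∂(μ.map g))) := by
      have h3 : ∀ j, ∫ t, mono (p j) (t : ℂ) ∂(μ.map g) = ∫ y, mono (p j) (g y : ℂ) ∂μ :=
        fun j => integral_map hg.aemeasurable
          ((mono (p j)).continuous.comp continuous_subtype_val).aestronglyMeasurable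
      have h4 := h1.add_const (∏ j, ∫ y, mono (p j) (g y : ℂ) ∂μ)
      rw [zero_add] at h4
      rw [Finset.prod_congr rfl fun j _ => h3 j]
      exact h4
    refine h2.congr fun k => ?_
    change (av (M (κ k)) fun n => ∏ j, mono (p j) (g (T^[a c (n + j.1)] x) : ℂ)) -
      ∏ j, ∫ y, mono (p j) (g y : ℂ) ∂μ + ∏ j, ∫ y, mono (p j) (g y : ℂ) ∂μ = _
    rw [sub_add_cancel]
    refine pf_av_congr fun n hn => Finset.prod_congr rfl fun j _ => ?_
    have h5 := hω (n + j.1) (by omega)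
    push_cast at h5
    rw [h5]

end Pool.Agent.PJN
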