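import Pool.Agent.PJN.Mean
import Pool.Agent.VINO.APl
import Pool.Agent.VINO.Gap

set_option autoImplicit false

/-!
# PJN/Pair: the pair correlations

PROOF. (0) exponential sums: `avg_floor` with `θ = α (δ_j' - δ_j)`: `av N e (α (a (n+j') - a (n+j))) → 0` for `j < j'` (`a_mono`: the
natural subtraction is the real one for `n ≥ 1`); the same with one factor: `av N e (α a (n+j)) → 0`.
(1) `pair_lim`: wlog `j < j'` (symmetric); `μ (T^{-p} A ∩ T^{-q} B) = μ (A ∩ T^{-(q-p)} B)` for `p ≤ q`; `mean_lim` with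
`s n = a (n+j') - a (n+j)`, and `|∫ 1_A (av N (1_B ∘ T^{s n}) - μ B)| ≤ (∫ ‖…‖²)^(1/2)`.
(2) `cross_lim`: the double average is `∫ av N (1_A ∘ T^{a (n+j)}) · av N (1_B ∘ T^{a (m+j')}) dμ`; both factors are bounded by `1` and tend
to constants in `L²` by `mean_lim`.
-/

namespace Pool.Agent.PJN

open MeasureTheory Filter Topology Pool.Agent.VINO

variable {c : ℝ} {X : Type} [MeasurableSpace X] {μ : Measure X} [IsProbabilityMeasure μ] {T : X → X}

/-- the indicator function with complex values -/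
private noncomputable def ind {X : Type} (B : Set X) (x : X) : ℂ := B.indicator (fun _ => (1 : ℂ)) x

private theorem ind_meas {B : Set X} (hB : MeasurableSet B) : Measurable (ind B) :=
  measurable_const.indicator hB

private theorem ind_norm {X : Type} (B : Set X) (x : X) : ‖ind B x‖ ≤ 1 := by
  unfold ind
  by_cases h : x ∈ B
  · rw [Set.indicator_of_mem h, norm_one]
  · rw [Set.indicator_of_notMem h, norm_zero]
    exact zero_le_one

private theorem ind_mul {X : Type} (A B : Set X) (x : X) : ind A x * ind B x = ind (A ∩ B) x := by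
  unfold ind
  rw [← Set.inter_indicator_mul]
  simp

private theorem ind_int {B : Set X} (hB : MeasurableSet B) : ∫ x, ind B x ∂μ = (μ.real B : ℂ) := by
  unfold ind
  rw [integral_indicator_const _ hB]
  simp

private theorem pair_int {A B : Set X} (hA : MeasurableSet A) (hB : MeasurableSet B)
    (hT : Measurable T) (p q : ℕ) :
    ∫ x, ind A (T^[p] x) * ind B (T^[q] x) ∂μ =
      ((μ.real ((T^[p] ⁻¹' A) ∩ (T^[q] ⁻¹' B)) : ℝ) : ℂ) := by
  rw [← ind_int (((hT.iterate p) hA).inter ((hT.iterate q) hB))]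
  refine integral_congr_ae (Eventually.of_forall fun x => ?_)
  simp only
  rw [← ind_mul]
  rfl

private theorem av_norm_le (N : ℕ) (u : ℕ → ℂ) (hu : ∀ n, ‖u n‖ ≤ 1) : ‖av N u‖ ≤ 1 := by
  unfold av
  rw [norm_mul, norm_inv, Complex.norm_natCast]
  have h1 : ‖∑ n ∈ Finset.Icc 1 N, u n‖ ≤ N := by
    refine (norm_sum_le _ _).trans ?_
    refine (Finset.sum_le_sum fun n _ => hu n).trans ?_
    simp
  rcases Nat.eq_zero_or_pos N with h | h
  · subst h
    simp
  · have h2 : (0 : ℝ) < N := by exact_mod_cast h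
    rw [inv_mul_le_iff₀ h2, mul_one]
    exact h1

private theorem av_meas (N : ℕ) (f : ℕ → X → ℂ) (hf : ∀ n, Measurable (f n)) :
    Measurable fun x => av N fun n => f n x := by
  unfold av
  exact (Finset.measurable_fun_sum _ fun n _ => hf n).const_mul _

private theorem int_of (f : X → ℂ) (hf : Measurable f) (C : ℝ) (h : ∀ x, ‖f x‖ ≤ C) :
    Integrable f μ :=
  Integrable.of_bound hf.aestronglyMeasurable C (Eventually.of_forall h)

private theorem av_int (N : ℕ) (f : ℕ → X → ℂ) (hf : ∀ n, Integrable (f n) μ) :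
    av N (fun n => ∫ x, f n x ∂μ) = ∫ x, av N (fun n => f n x) ∂μ := by
  unfold av
  rw [integral_const_mul, integral_finsetSum _ (fun n _ => hf n)]

private theorem av_congr (N : ℕ) (u v : ℕ → ℂ) (h : ∀ n, 1 ≤ n → u n = v n) : av N u = av N v := by
  unfold av
  rw [Finset.sum_congr rfl fun n hn => h n (Finset.mem_Icc.1 hn).1]

private theorem av_mul_left (N : ℕ) (a : ℂ) (u : ℕ → ℂ) : av N (fun n => a * u n) = a * av N u := by
  unfold av
  rw [← Finset.mul_sum]
  ring

/-- `L²` convergence to `0` gives convergence of the integrals against bounded functions -/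
private theorem lim_of_sq (g Z : ℕ → X → ℂ) (hg : ∀ N, Measurable (g N)) (hg1 : ∀ N x, ‖g N x‖ ≤ 1)
    (hZ : ∀ N, Measurable (Z N)) (C : ℝ) (hZ1 : ∀ N x, ‖Z N x‖ ≤ C)
    (h : Tendsto (fun N => ∫ x, ‖Z N x‖ ^ 2 ∂μ) atTop (𝓝 0)) :
    Tendsto (fun N => ∫ x, g N x * Z N x ∂μ) atTop (𝓝 0) := by
  have h0 : Tendsto (fun N => Real.sqrt (∫ x, ‖Z N x‖ ^ 2 ∂μ)) atTop (𝓝 0) := by
    have := (Real.continuous_sqrt.tendsto 0).comp h
    rw [Real.sqrt_zero] at this
    exact this
  refine squeeze_zero_norm (fun N => ?_) h0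
  have hZi : Integrable (fun x => ‖Z N x‖) μ := (int_of (Z N) (hZ N) C (hZ1 N)).norm
  have h1 : ‖∫ x, g N x * Z N x ∂μ‖ ≤ ∫ x, ‖Z N x‖ ∂μ := by
    refine (norm_integral_le_integral_norm _).trans ?_
    refine integral_mono_of_nonneg (Eventually.of_forall fun x => norm_nonneg _) hZi
      (Eventually.of_forall fun x => ?_)
    change ‖g N x * Z N x‖ ≤ ‖Z N x‖
    rw [norm_mul]
    exact mul_le_of_le_one_left (norm_nonneg _) (hg1 N x)
  refine h1.trans ?_
  refine Real.le_sqrt_of_sq_le ?_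
  have hm : MemLp (fun x => ‖Z N x‖) 2 μ :=
    MemLp.of_bound (hZ N).norm.aestronglyMeasurable C (Eventually.of_forall fun x => by
      rw [norm_norm]
      exact hZ1 N x)
  have h2 := ProbabilityTheory.variance_eq_sub hm
  have h3 := ProbabilityTheory.variance_nonneg (fun x => ‖Z N x‖) μ
  rw [h2] at h3
  have h4 : ∫ x, ((fun x => ‖Z N x‖) ^ 2) x ∂μ = ∫ x, ‖Z N x‖ ^ 2 ∂μ := rfl
  rw [h4] at h3
  linarith

/-- the averages along `s` against bounded functions -/
private theorem avg_lim (hT : Ergodic T μ) (s : ℕ → ℕ)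
    (hs : ∀ α : ℝ, (∀ k : ℤ, α ≠ k) →
      Tendsto (fun N => av N fun n => Pool.Agent.VMV.e (α * s n)) atTop (𝓝 0))
    {B : Set X} (hB : MeasurableSet B) (g : ℕ → X → ℂ) (hg : ∀ N, Measurable (g N))
    (hg1 : ∀ N x, ‖g N x‖ ≤ 1) :
    Tendsto (fun N => ∫ x, g N x * ((av N fun n => ind B (T^[s n] x)) - (μ.real B : ℂ)) ∂μ) atTop
      (𝓝 0) := by
  have hTm : Measurable T := hT.measurable
  refine lim_of_sq g (fun N x => (av N fun n => ind B (T^[s n] x)) - (μ.real B : ℂ)) hg hg1
    (fun N => ?_) 2 (fun N x => ?_) (mean_lim μ T hT s hs B hB)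
  · exact (av_meas N (fun n x => ind B (T^[s n] x))
      fun n => (ind_meas hB).comp (hTm.iterate _)).sub_const _
  · refine (norm_sub_le _ _).trans ?_
    have h1 := av_norm_le N (fun n => ind B (T^[s n] x)) fun n => ind_norm B _
    have h2 : ‖(μ.real B : ℂ)‖ ≤ 1 := by
      rw [Complex.norm_real, Real.norm_eq_abs, abs_of_nonneg measureReal_nonneg]
      exact measureReal_le_one
    linarith

private theorem exp_one (hc0 : 0 < c) (hc1 : c < 1 / 2) (j : ℕ) (α : ℝ) (hα : ∀ k : ℤ, α ≠ k) :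
    Tendsto (fun N => av N fun n => Pool.Agent.VMV.e (α * (a c (n + j) : ℕ))) atTop (𝓝 0) := by
  have h1 := avg_floor hc0 hc1 (r := j) (fun i => if i.1 = j then α else 0) (by
    intro h
    obtain ⟨k, hk⟩ := h (Fin.last j)
    simp only [Fin.val_last, if_true] at hk
    exact hα k hk)
  refine h1.congr fun N => ?_
  refine av_congr N _ _ fun n _ => ?_
  congr 1
  rw [Finset.sum_eq_single (Fin.last j)]
  · simp
  · intro i _ hi
    rw [if_neg, zero_mul]
    intro h
    exact hi (Fin.ext h)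
  · intro h
    exact absurd (Finset.mem_univ _) h

private theorem exp_two (hc0 : 0 < c) (hc1 : c < 1 / 2) {j j' : ℕ} (hj : j < j') (α : ℝ)
    (hα : ∀ k : ℤ, α ≠ k) :
    Tendsto (fun N => av N fun n =>
      Pool.Agent.VMV.e (α * (a c (n + j') - a c (n + j) : ℕ))) atTop (𝓝 0) := by
  have h1 := avg_floor hc0 hc1 (r := j')
    (fun i => (if i.1 = j' then α else 0) + (if i.1 = j then -α else 0)) (by
    intro h
    obtain ⟨k, hk⟩ := h (Fin.last j')
    simp only [Fin.val_last, if_true] at hk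
    rw [if_neg (by omega), add_zero] at hk
    exact hα k hk)
  refine h1.congr fun N => ?_
  refine av_congr N _ _ fun n hn => ?_
  congr 1
  have hle : a c (n + j) ≤ a c (n + j') := a_mono hc0 (by omega) (by omega)
  rw [Nat.cast_sub hle]
  simp only [add_mul, Finset.sum_add_distrib]
  have e1 : ∑ x : Fin (j' + 1), (if x.1 = j' then α else 0) * (a c (n + x.1) : ℝ) =
      α * (a c (n + j') : ℝ) := by
    rw [Finset.sum_eq_single (Fin.last j')]
    · simp
    · intro i _ hi
      rw [if_neg, zero_mul]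
      intro h
      exact hi (Fin.ext h)
    · intro h
      exact absurd (Finset.mem_univ _) h
  have e2 : ∑ x : Fin (j' + 1), (if x.1 = j then -α else 0) * (a c (n + x.1) : ℝ) =
      -α * (a c (n + j) : ℝ) := by
    rw [Finset.sum_eq_single (⟨j, by omega⟩ : Fin (j' + 1))]
    · simp
    · intro i _ hi
      rw [if_neg, zero_mul]
      intro h
      exact hi (Fin.ext h)
    · intro h
      exact absurd (Finset.mem_univ _) h
  rw [e1, e2]
  ring

private theorem pair_lt (hc0 : 0 < c) (hc1 : c < 1 / 2) (hT : Ergodic T μ) {j j' : ℕ} (hj : j < j')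
    {A B : Set X} (hA : MeasurableSet A) (hB : MeasurableSet B) :
    Tendsto (fun N => av N fun n =>
      ((μ.real ((T^[a c (n + j)] ⁻¹' A) ∩ (T^[a c (n + j')] ⁻¹' B)) : ℝ) : ℂ)) atTop
      (𝓝 ((μ.real A : ℂ) * (μ.real B : ℂ))) := by
  have hTm : Measurable T := hT.measurable
  have h1 := avg_lim hT (fun n => a c (n + j') - a c (n + j))
    (fun α hα => exp_two hc0 hc1 hj α hα) hB (fun _ => ind A) (fun _ => ind_meas hA)
    (fun _ => ind_norm A)
  have h2 := h1.add_const ((μ.real A : ℂ) * (μ.real B : ℂ))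
  rw [zero_add] at h2
  refine h2.congr fun N => ?_
  have hmn : ∀ n, Measurable fun x => ind A x * ind B (T^[a c (n + j') - a c (n + j)] x) :=
    fun n => (ind_meas hA).mul ((ind_meas hB).comp (hTm.iterate _))
  have hbn : ∀ (n : ℕ) (x : X), ‖ind A x * ind B (T^[a c (n + j') - a c (n + j)] x)‖ ≤ 1 := by
    intro n x
    rw [norm_mul]
    exact mul_le_one₀ (ind_norm _ _) (norm_nonneg _) (ind_norm _ _)
  have e1 : ∀ x, ind A x * ((av N fun n => ind B (T^[a c (n + j') - a c (n + j)] x)) -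
      (μ.real B : ℂ)) = (av N fun n => ind A x * ind B (T^[a c (n + j') - a c (n + j)] x)) -
        ind A x * (μ.real B : ℂ) := by
    intro x
    rw [av_mul_left, mul_sub]
  simp only [e1]
  rw [integral_sub, integral_mul_const, ind_int hA, sub_add_cancel, ← av_int N
    (fun n x => ind A x * ind B (T^[a c (n + j') - a c (n + j)] x))
    (fun n => int_of _ (hmn n) 1 (hbn n))]
  · refine av_congr N _ _ fun n hn => ?_
    have hle : a c (n + j) ≤ a c (n + j') := a_mono hc0 (by omega) (by omega)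
    have e2 := pair_int (μ := μ) (T := T) hA hB hTm 0 (a c (n + j') - a c (n + j))
    simp only [Function.iterate_zero, id_eq] at e2
    rw [e2]
    congr 1
    have e3 : (T^[a c (n + j)] ⁻¹' A) ∩ (T^[a c (n + j')] ⁻¹' B) =
        T^[a c (n + j)] ⁻¹' ((id ⁻¹' A) ∩ (T^[a c (n + j') - a c (n + j)] ⁻¹' B)) := by
      ext x
      simp only [Set.mem_inter_iff, Set.mem_preimage, id_eq]
      rw [← Function.iterate_add_apply, Nat.sub_add_cancel hle]
    rw [e3]
    exact (((hT.toMeasurePreserving.iterate _).measureReal_preimage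
      ((measurable_id hA).inter ((hTm.iterate _) hB)).nullMeasurableSet)).symm
  · exact int_of _ (av_meas N _ hmn) 1 fun x => av_norm_le N _ fun n => hbn n x
  · exact int_of _ ((ind_meas hA).mul_const _) 1 fun x => by
      rw [norm_mul, Complex.norm_real, Real.norm_eq_abs, abs_of_nonneg measureReal_nonneg]
      exact mul_le_one₀ (ind_norm _ _) measureReal_nonneg measureReal_le_one

theorem pair_lim (hc0 : 0 < c) (hc1 : c < 1 / 2) (hT : Ergodic T μ) {j j' : ℕ} (hj : j ≠ j')
    {A B : Set X} (hA : MeasurableSet A) (hB : MeasurableSet B) :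
    Tendsto (fun N => av N fun n =>
      ((μ.real ((T^[a c (n + j)] ⁻¹' A) ∩ (T^[a c (n + j')] ⁻¹' B)) : ℝ) : ℂ)) atTop
      (𝓝 ((μ.real A : ℂ) * (μ.real B : ℂ))) := by
  rcases Nat.lt_or_gt_of_ne hj with h | h
  · exact pair_lt hc0 hc1 hT h hA hB
  · have h1 := pair_lt hc0 hc1 hT h hB hA
    rw [mul_comm]
    simp only [Set.inter_comm (T^[a c (_ + j)] ⁻¹' A)]
    exact h1

theorem cross_lim (hc0 : 0 < c) (hc1 : c < 1 / 2) (hT : Ergodic T μ) (j j' : ℕ)
    {A B : Set X} (hA : MeasurableSet A) (hB : MeasurableSet B) :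
    Tendsto (fun N => av N fun n => av N fun m =>
      ((μ.real ((T^[a c (n + j)] ⁻¹' A) ∩ (T^[a c (m + j')] ⁻¹' B)) : ℝ) : ℂ)) atTop
      (𝓝 ((μ.real A : ℂ) * (μ.real B : ℂ))) := by
  have hTm : Measurable T := hT.measurable
  have hAm : ∀ n, Measurable fun x => ind A (T^[a c (n + j)] x) :=
    fun n => (ind_meas hA).comp (hTm.iterate _)
  have hBm : ∀ n, Measurable fun x => ind B (T^[a c (n + j')] x) :=
    fun n => (ind_meas hB).comp (hTm.iterate _)
  have hPm : ∀ N, Measurable fun x => av N fun n => ind A (T^[a c (n + j)] x) :=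
    fun N => av_meas N _ hAm
  have hQm : ∀ N, Measurable fun x => av N fun n => ind B (T^[a c (n + j')] x) :=
    fun N => av_meas N _ hBm
  have hP1 : ∀ N x, ‖av N fun n => ind A (T^[a c (n + j)] x)‖ ≤ 1 :=
    fun N x => av_norm_le N _ fun n => ind_norm _ _
  have hQ1 : ∀ N x, ‖av N fun n => ind B (T^[a c (n + j')] x)‖ ≤ 1 :=
    fun N x => av_norm_le N _ fun n => ind_norm _ _
  have h1 := avg_lim hT (fun n => a c (n + j)) (fun α hα => exp_one hc0 hc1 j α hα) hA
    (fun N x => av N fun n => ind B (T^[a c (n + j')] x)) hQm hQ1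
  have h2 := avg_lim hT (fun n => a c (n + j')) (fun α hα => exp_one hc0 hc1 j' α hα) hB
    (fun _ _ => 1) (fun _ => measurable_const) (fun _ _ => by simp)
  have h3 := (h1.add (h2.const_mul (μ.real A : ℂ))).add_const ((μ.real A : ℂ) * (μ.real B : ℂ))
  rw [mul_zero, zero_add, zero_add] at h3
  refine h3.congr fun N => ?_
  set P : X → ℂ := fun x => av N fun n => ind A (T^[a c (n + j)] x) with hP
  set Q : X → ℂ := fun x => av N fun n => ind B (T^[a c (n + j')] x) with hQ
  have hPQi : Integrable (fun x => P x * Q x) μ := int_of _ ((hPm N).mul (hQm N)) 1 fun x => by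
    rw [norm_mul]
    exact mul_le_one₀ (hP1 N x) (norm_nonneg _) (hQ1 N x)
  have hQi : Integrable Q μ := int_of _ (hQm N) 1 (hQ1 N)
  have e1 : ∫ x, Q x * (P x - (μ.real A : ℂ)) ∂μ =
      ∫ x, P x * Q x ∂μ - (μ.real A : ℂ) * ∫ x, Q x ∂μ := by
    rw [← integral_const_mul, ← integral_sub hPQi (hQi.const_mul _)]
    refine integral_congr_ae (Eventually.of_forall fun x => ?_)
    simp only
    ring
  have e2 : ∫ x, (1 : ℂ) * (Q x - (μ.real B : ℂ)) ∂μ = ∫ x, Q x ∂μ - (μ.real B : ℂ) := by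
    simp only [one_mul]
    rw [integral_sub hQi (integrable_const _), integral_const]
    simp
  have e3 : (av N fun n => av N fun m =>
      ((μ.real ((T^[a c (n + j)] ⁻¹' A) ∩ (T^[a c (m + j')] ⁻¹' B)) : ℝ) : ℂ)) =
      ∫ x, P x * Q x ∂μ := by
    have hm : ∀ n m, Integrable (fun x => ind A (T^[a c (n + j)] x) *
        ind B (T^[a c (m + j')] x)) μ := fun n m => int_of _ ((hAm n).mul (hBm m)) 1 fun x => by
      rw [norm_mul]
      exact mul_le_one₀ (ind_norm _ _) (norm_nonneg _) (ind_norm _ _)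
    have e4 : ∀ n, (av N fun m =>
        ((μ.real ((T^[a c (n + j)] ⁻¹' A) ∩ (T^[a c (m + j')] ⁻¹' B)) : ℝ) : ℂ)) =
        ∫ x, ind A (T^[a c (n + j)] x) * Q x ∂μ := by
      intro n
      rw [← av_congr N (fun m => ∫ x, ind A (T^[a c (n + j)] x) * ind B (T^[a c (m + j')] x) ∂μ) _
        fun m _ => pair_int hA hB hTm _ _, av_int N _ (hm n)]
      refine integral_congr_ae (Eventually.of_forall fun x => ?_)
      simp only
      rw [av_mul_left]
    rw [av_congr N _ _ fun n _ => e4 n, av_int N (fun n x => ind A (T^[a c (n + j)] x) * Q x)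
      fun n => int_of _ ((hAm n).mul (hQm N)) 1 fun x => by
        rw [norm_mul]
        exact mul_le_one₀ (ind_norm _ _) (norm_nonneg _) (hQ1 N x)]
    refine integral_congr_ae (Eventually.of_forall fun x => ?_)
    simp only [hP]
    have e5 : (fun n => ind A (T^[a c (n + j)] x) * Q x) =
        fun n => Q x * ind A (T^[a c (n + j)] x) := by
      funext n
      ring
    rw [e5, av_mul_left]
    ring
  rw [e3, e1, e2]
  ring

end Pool.Agent.PJN
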