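import Pool.Agent.PJN.Lam
import Pool.Agent.PJN.Pair

set_option autoImplicit false

/-!
# PJN/Joi: the limit joining is the product joining

`hpid` is applied to `L` (index type `Fin (r+1) ⊕ Fin (r+1)`). Invariance and the pair marginals are checked
on measurable rectangles, where the mass is the limit along `U` of `lam_int`.
-/

namespace Pool.Agent.PJN

open MeasureTheory Filter Topology Pool.Agent.VINO

section Aux

variable {X : Type} [MeasurableSpace X]

/-- the complex indicator function -/
private noncomputable def jInd (A : Set X) : X → ℂ := A.indicator fun _ => (1 : ℂ)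

private lemma jInd_bdd {A : Set X} (hA : MeasurableSet A) : Bdd (jInd A) := by
  refine ⟨measurable_const.indicator hA, 1, fun x => ?_⟩
  unfold jInd
  by_cases hx : x ∈ A
  · rw [Set.indicator_of_mem hx]
    simp
  · rw [Set.indicator_of_notMem hx]
    simp

private lemma jInd_prod {ι : Type} [Fintype ι] (A : ι → Set X) (y : ι → X) :
    ∏ i, jInd (A i) (y i) = {z : ι → X | ∀ i, z i ∈ A i}.indicator (fun _ => (1 : ℂ)) y := by
  classical
  simp only [jInd, Set.indicator_apply, Set.mem_setOf_eq]
  rw [Finset.prod_boole]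
  simp

private lemma jRect_meas {ι : Type} [Fintype ι] {A : ι → Set X} (hA : ∀ i, MeasurableSet (A i)) :
    MeasurableSet {z : ι → X | ∀ i, z i ∈ A i} := by
  have : {z : ι → X | ∀ i, z i ∈ A i} = ⋂ i, (fun z : ι → X => z i) ⁻¹' A i := by
    ext z
    simp
  rw [this]
  exact MeasurableSet.iInter fun i => measurable_pi_apply i (hA i)

private lemma jInt_L {ι : Type} [Fintype ι] (L : Measure (ι → X)) {A : ι → Set X}
    (hA : ∀ i, MeasurableSet (A i)) :
    ∫ x, ∏ i, jInd (A i) (x i) ∂L = (L.real {z : ι → X | ∀ i, z i ∈ A i} : ℂ) := by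
  simp_rw [jInd_prod]
  rw [integral_indicator_const _ (jRect_meas hA)]
  simp

/-- the point of the product space -/
private noncomputable def jPt {r : ℕ} (c : ℝ) (T : X → X) (n m : ℕ) (x : X) : Fin (r + 1) ⊕ Fin (r + 1) → X :=
  Sum.elim (fun j : Fin (r + 1) => T^[a c (n + j.1)] x)
        (fun j : Fin (r + 1) => T^[a c (m + j.1)] x)

private lemma jPt_meas {r : ℕ} (c : ℝ) {T : X → X} (hT : Measurable T) (n m : ℕ) :
    Measurable (jPt (r := r) c T n m) := by
  refine measurable_pi_lambda _ fun i => ?_
  rcases i with j | j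
  · exact hT.iterate _
  · exact hT.iterate _

private lemma jInt_mu {r : ℕ} (c : ℝ) {T : X → X} (μ : Measure X) (hT : Measurable T) (n m : ℕ)
    {A : Fin (r + 1) ⊕ Fin (r + 1) → Set X} (hA : ∀ i, MeasurableSet (A i)) :
    ∫ x, (∏ j, jInd (A (Sum.inl j)) (T^[a c (n + j.1)] x)) *
        ∏ j, jInd (A (Sum.inr j)) (T^[a c (m + j.1)] x) ∂μ =
      (μ.real {x | ∀ i, jPt c T n m x i ∈ A i} : ℂ) := by
  have h1 : ∀ x, (∏ j, jInd (A (Sum.inl j)) (T^[a c (n + j.1)] x)) *
        ∏ j, jInd (A (Sum.inr j)) (T^[a c (m + j.1)] x) =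
      {x | ∀ i, jPt c T n m x i ∈ A i}.indicator (fun _ => (1 : ℂ)) x := by
    intro x
    have h2 := jInd_prod A (jPt c T n m x)
    rw [Fintype.prod_sum_type] at h2
    exact h2
  simp_rw [h1]
  have h3 : MeasurableSet {x | ∀ i, jPt c T n m x i ∈ A i} := jPt_meas c hT n m (jRect_meas hA)
  rw [integral_indicator_const _ h3]
  simp

private lemma jAv_const (N : ℕ) (z : ℂ) : av (N + 1) (fun _ => z) = z := by
  unfold av
  rw [Finset.sum_const, Nat.card_Icc, Nat.add_sub_cancel, nsmul_eq_mul, ← mul_assoc,
    inv_mul_cancel₀ (by exact_mod_cast Nat.succ_ne_zero N), one_mul]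

end Aux

theorem joi {c : ℝ} (hc0 : 0 < c) (hc1 : c < 1 / 2) {X : Type} [MeasurableSpace X] {μ : Measure X}
    [IsProbabilityMeasure μ] {T : X → X} (hT : Ergodic T μ) (hpid : PID μ T) {r : ℕ}
    {U : Ultrafilter ℕ} (hU : (U : Filter ℕ) ≤ atTop) {L : Measure (Fin (r + 1) ⊕ Fin (r + 1) → X)}
    (hL : IsProbabilityMeasure L) (hm : ∀ i, L.map (fun x => x i) = μ)
    (hlim : ∀ g : Fin (r + 1) ⊕ Fin (r + 1) → X → ℂ, (∀ i, Bdd (g i)) →
      Tendsto (fun N => ∫ x, ∏ i, g i (x i) ∂(lam c μ T r N)) U (𝓝 (∫ x, ∏ i, g i (x i) ∂L))) :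
    L = Measure.pi fun _ => μ := by
  have hTm : Measurable T := hT.measurable
  have hTp : MeasurePreserving T μ μ := hT.toMeasurePreserving
  -- the mass of a rectangle is a limit
  have key : ∀ A : Fin (r + 1) ⊕ Fin (r + 1) → Set X, (∀ i, MeasurableSet (A i)) →
      Tendsto (fun N => av (N + 1) fun n => av (N + 1) fun m =>
        (μ.real {x | ∀ i, jPt c T n m x i ∈ A i} : ℂ)) U
        (𝓝 (L.real {z | ∀ i, z i ∈ A i} : ℂ)) := by
    intro A hA
    have h1 := hlim (fun i => jInd (A i)) fun i => jInd_bdd (hA i)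
    rw [jInt_L L hA] at h1
    refine h1.congr fun N => ?_
    rw [lam_int hTp r N (fun i => jInd (A i)) fun i => jInd_bdd (hA i)]
    congr 1
    funext n
    congr 1
    funext m
    exact jInt_mu c μ hTm n m hA
  refine hpid _ L hL ?_ hm ?_
  · -- invariance
    have hTt : Measurable fun (x : Fin (r + 1) ⊕ Fin (r + 1) → X) i => T (x i) :=
      measurable_pi_lambda _ fun i => hTm.comp (measurable_pi_apply i)
    have : IsProbabilityMeasure (L.map fun x i => T (x i)) := Measure.isProbabilityMeasure_map hTt.aemeasurable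
    refine ext_of_generate_finite _ generateFrom_pi.symm isPiSystem_pi ?_ (by simp)
    rintro _ ⟨A, hA, rfl⟩
    have hA' : ∀ i, MeasurableSet (A i) := fun i => hA i (Set.mem_univ i)
    have hs : (Set.univ.pi A) = {z : Fin (r + 1) ⊕ Fin (r + 1) → X | ∀ i, z i ∈ A i} := by
      ext z
      simp
    rw [hs, Measure.map_apply hTt (jRect_meas hA')]
    have h1 := key A hA'
    have h2 := key (fun i => T ⁻¹' A i) fun i => hTm (hA' i)
    have h3 : ∀ n m : ℕ, μ.real {x | ∀ i, jPt c T n m x i ∈ T ⁻¹' A i} =
        μ.real {x | ∀ i, jPt c T n m x i ∈ A i} := by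
      intro n m
      have h4 : {x | ∀ i, jPt c T n m x i ∈ T ⁻¹' A i} = T ⁻¹' {x | ∀ i, jPt c T n m x i ∈ A i} := by
        ext x
        simp only [Set.mem_setOf_eq, Set.mem_preimage]
        refine forall_congr' fun i => ?_
        rcases i with j | j
        · have h5 : T (jPt c T n m x (Sum.inl j)) = jPt c T n m (T x) (Sum.inl j) :=
            (Function.Commute.self_iterate T (a c (n + j.1))) x
          rw [h5]
        · have h5 : T (jPt c T n m x (Sum.inr j)) = jPt c T n m (T x) (Sum.inr j) :=
            (Function.Commute.self_iterate T (a c (m + j.1))) x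
          rw [h5]
      have h5 : MeasurableSet {x | ∀ i, jPt c T n m x i ∈ A i} :=
        jPt_meas c hTm n m (jRect_meas hA')
      rw [h4, measureReal_def, measureReal_def, hTp.measure_preimage h5.nullMeasurableSet]
    simp_rw [h3] at h2
    have h6 := tendsto_nhds_unique h2 h1
    have h7 : L.real {z | ∀ i, z i ∈ T ⁻¹' A i} = L.real {z | ∀ i, z i ∈ A i} := by
      exact_mod_cast h6
    rw [measureReal_def, measureReal_def] at h7
    exact (ENNReal.toReal_eq_toReal_iff' (measure_ne_top _ _) (measure_ne_top _ _)).1 h7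
  · -- pairs
    intro i i' hne
    symm
    refine Measure.prod_eq fun A B hA hB => ?_
    have hpm : Measurable fun x : Fin (r + 1) ⊕ Fin (r + 1) → X => (x i, x i') :=
      (measurable_pi_apply i).prodMk (measurable_pi_apply i')
    rw [Measure.map_apply hpm (hA.prod hB)]
    classical
    obtain ⟨C, hC⟩ : ∃ C : Fin (r + 1) ⊕ Fin (r + 1) → Set X, ∀ k, C k =
      if k = i then A else if k = i' then B else Set.univ := ⟨_, fun _ => rfl⟩
    have hCm : ∀ k, MeasurableSet (C k) := by
      intro k
      rw [hC]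
      split_ifs
      · exact hA
      · exact hB
      · exact MeasurableSet.univ
    have hmem : ∀ y : Fin (r + 1) ⊕ Fin (r + 1) → X, (∀ k, y k ∈ C k) ↔ y i ∈ A ∧ y i' ∈ B := by
      intro y
      constructor
      · intro h
        have h1 := h i
        have h2 := h i'
        rw [hC, if_pos rfl] at h1
        rw [hC, if_neg hne.symm, if_pos rfl] at h2
        exact ⟨h1, h2⟩
      · rintro ⟨h1, h2⟩ k
        rw [hC]
        split_ifs with h3 h4
        · rw [h3]
          exact h1
        · rw [h4]
          exact h2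
        · exact Set.mem_univ _
    have hset : (fun x : Fin (r + 1) ⊕ Fin (r + 1) → X => (x i, x i')) ⁻¹' A ×ˢ B =
        {z | ∀ k, z k ∈ C k} := by
      ext z
      rw [Set.mem_setOf_eq, hmem]
      rfl
    rw [hset]
    have h1 := key C hCm
    simp_rw [hmem] at h1
    have hU1 : Tendsto (fun N : ℕ => N + 1) U atTop := (tendsto_add_atTop_nat 1).mono_left hU
    have h2 : Tendsto (fun N => av (N + 1) fun n => av (N + 1) fun m =>
        (μ.real {x | jPt (r := r) c T n m x i ∈ A ∧ jPt (r := r) c T n m x i' ∈ B} : ℂ)) U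
        (𝓝 ((μ.real A : ℂ) * (μ.real B : ℂ))) := by
      rcases i with j | j <;> rcases i' with j' | j'
      · have hjj : j.1 ≠ j'.1 := fun h => hne (by rw [Fin.ext h])
        refine ((pair_lim hc0 hc1 hT hjj hA hB).comp hU1).congr fun N => ?_
        simp only [Function.comp]
        congr 1
        funext n
        symm
        exact jAv_const N _
      · exact (cross_lim hc0 hc1 hT j.1 j'.1 hA hB).comp hU1
      · have h3 := (cross_lim hc0 hc1 hT j'.1 j.1 hB hA).comp hU1
        rw [mul_comm] at h3
        refine h3.congr fun N => ?_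
        simp only [Function.comp]
        congr 1
        funext n
        congr 1
        funext m
        rw [Set.inter_comm]
        rfl
      · have hjj : j.1 ≠ j'.1 := fun h => hne (by rw [Fin.ext h])
        refine ((pair_lim hc0 hc1 hT hjj hA hB).comp hU1).congr fun N => ?_
        simp only [Function.comp]
        symm
        exact jAv_const N _
    have h6 := tendsto_nhds_unique h1 h2
    have h8 : {z : Fin (r + 1) ⊕ Fin (r + 1) → X | ∀ k, z k ∈ C k} = {z | z i ∈ A ∧ z i' ∈ B} := by
      ext z
      exact hmem z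
    rw [h8]
    have h7 : L.real {z | z i ∈ A ∧ z i' ∈ B} = μ.real A * μ.real B := by
      exact_mod_cast h6
    rw [measureReal_def, measureReal_def, measureReal_def, ← ENNReal.toReal_mul] at h7
    exact (ENNReal.toReal_eq_toReal_iff' (measure_ne_top _ _)
      (ENNReal.mul_ne_top (measure_ne_top _ _) (measure_ne_top _ _))).1 h7

end Pool.Agent.PJN
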