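import Pool.Agent.PJN.Defs

set_option autoImplicit false

/-!
# PJN/Lam: the measures `lam`

PROOF. `lam` is the average of `(N+1)^2` push forwards of `μ` under measurable maps (`hT.measurable.iterate`); each has
marginals `μ` because `T^[k]` preserves `μ`. `integral_smul_measure`, `integral_finset_sum_measure`, `integral_map`,
`Fintype.prod_sum_type`; all functions are bounded and measurable (`Bdd`).
-/

namespace Pool.Agent.PJN

open MeasureTheory Filter Topology Pool.Agent.VINO

variable {c : ℝ} {X : Type} [MeasurableSpace X] {μ : Measure X} [IsProbabilityMeasure μ] {T : X → X}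

/-- the point of the product space with the two blocks of iterates -/
private noncomputable def el (c : ℝ) (T : X → X) (r n m : ℕ) (x : X) :
    Fin (r + 1) ⊕ Fin (r + 1) → X :=
  Sum.elim (fun j : Fin (r + 1) => T^[a c (n + j.1)] x) (fun j : Fin (r + 1) => T^[a c (m + j.1)] x)

omit [IsProbabilityMeasure μ] in
private theorem el_meas (hT : MeasurePreserving T μ μ) (r n m : ℕ) :
    Measurable (el c T r n m) := by
  refine measurable_pi_iff.2 fun i => ?_
  rcases i with j | j
  · exact hT.measurable.iterate _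
  · exact hT.measurable.iterate _

omit [IsProbabilityMeasure μ] in
private theorem lam_eq (r N : ℕ) : lam c μ T r N =
    (((N + 1 : ℕ) : ENNReal)⁻¹ * ((N + 1 : ℕ) : ENNReal)⁻¹) •
      ∑ n ∈ Finset.Icc 1 (N + 1), ∑ m ∈ Finset.Icc 1 (N + 1), μ.map (el c T r n m) := rfl

omit [IsProbabilityMeasure μ] in
private theorem lam_apply (hT : MeasurePreserving T μ μ) (r N : ℕ)
    (s : Set (Fin (r + 1) ⊕ Fin (r + 1) → X)) (hs : MeasurableSet s) (b : ENNReal)
    (h : ∀ n m, μ (el c T r n m ⁻¹' s) = b) : lam c μ T r N s = b := by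
  rw [lam_eq, Measure.smul_apply, Measure.finsetSum_apply]
  have h1 : ∀ n ∈ Finset.Icc 1 (N + 1),
      (∑ m ∈ Finset.Icc 1 (N + 1), μ.map (el c T r n m)) s = ((N + 1 : ℕ) : ENNReal) * b := by
    intro n _
    rw [Measure.finsetSum_apply]
    have h2 : ∀ m ∈ Finset.Icc 1 (N + 1), (μ.map (el c T r n m)) s = b := fun m _ => by
      rw [Measure.map_apply (el_meas hT r n m) hs, h]
    rw [Finset.sum_congr rfl h2, Finset.sum_const, Nat.card_Icc, nsmul_eq_mul, Nat.add_sub_cancel]
  rw [Finset.sum_congr rfl h1, Finset.sum_const, Nat.card_Icc, nsmul_eq_mul, Nat.add_sub_cancel,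
    smul_eq_mul]
  have h0 : ((N + 1 : ℕ) : ENNReal) ≠ 0 := Nat.cast_ne_zero.2 (Nat.succ_ne_zero N)
  have ht : ((N + 1 : ℕ) : ENNReal) ≠ ⊤ := ENNReal.natCast_ne_top _
  generalize ((N + 1 : ℕ) : ENNReal) = K at h0 ht ⊢
  calc K⁻¹ * K⁻¹ * (K * (K * b)) = (K⁻¹ * K) * ((K⁻¹ * K) * b) := by ring
    _ = b := by rw [ENNReal.inv_mul_cancel h0 ht, one_mul, one_mul]

theorem lam_prob (hT : MeasurePreserving T μ μ) (r N : ℕ) : IsProbabilityMeasure (lam c μ T r N) :=
  ⟨lam_apply hT r N Set.univ MeasurableSet.univ 1 fun n m => by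
    rw [Set.preimage_univ, measure_univ]⟩

theorem lam_marg (hT : MeasurePreserving T μ μ) (r N : ℕ) (i : Fin (r + 1) ⊕ Fin (r + 1)) :
    (lam c μ T r N).map (fun x => x i) = μ := by
  refine Measure.ext fun s hs => ?_
  rw [Measure.map_apply (measurable_pi_apply i) hs]
  refine lam_apply hT r N _ (measurable_pi_apply i hs) (μ s) fun n m => ?_
  rcases i with j | j
  · exact (hT.iterate _).measure_preimage hs.nullMeasurableSet
  · exact (hT.iterate _).measure_preimage hs.nullMeasurableSet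

theorem lam_int (hT : MeasurePreserving T μ μ) (r N : ℕ) (g : Fin (r + 1) ⊕ Fin (r + 1) → X → ℂ)
    (hg : ∀ i, Bdd (g i)) :
    ∫ x, ∏ i, g i (x i) ∂(lam c μ T r N) = av (N + 1) fun n => av (N + 1) fun m =>
      ∫ x, (∏ j, g (Sum.inl j) (T^[a c (n + j.1)] x)) * ∏ j, g (Sum.inr j) (T^[a c (m + j.1)] x) ∂μ := by
  have hM : Measurable (fun x : Fin (r + 1) ⊕ Fin (r + 1) → X => ∏ i, g i (x i)) :=
    Finset.measurable_prod _ fun i _ => (hg i).1.comp (measurable_pi_apply i)
  have hg2 : ∀ i, ∃ M : ℝ, ∀ x, ‖g i x‖ ≤ M := fun i => (hg i).2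
  choose M hMb using hg2
  have hB : ∀ x : Fin (r + 1) ⊕ Fin (r + 1) → X, ‖∏ i, g i (x i)‖ ≤ ∏ i, M i := by
    intro x
    rw [norm_prod]
    exact Finset.prod_le_prod (fun _ _ => norm_nonneg _) fun i _ => hMb i _
  have hI : ∀ n m, Integrable (fun x => ∏ i, g i (x i)) (μ.map (el c T r n m)) := by
    intro n m
    have : IsProbabilityMeasure (μ.map (el c T r n m)) :=
      Measure.isProbabilityMeasure_map (el_meas hT r n m).aemeasurable
    exact Integrable.of_bound hM.aestronglyMeasurable _ (ae_of_all _ hB)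
  rw [lam_eq, integral_smul_measure, integral_finsetSum_measure
    (fun n _ => integrable_finsetSum_measure.2 fun m _ => hI n m)]
  have h1 : ∀ n ∈ Finset.Icc 1 (N + 1),
      ∫ x, ∏ i, g i (x i) ∂(∑ m ∈ Finset.Icc 1 (N + 1), μ.map (el c T r n m)) =
      ∑ m ∈ Finset.Icc 1 (N + 1), ∫ x, (∏ j, g (Sum.inl j) (T^[a c (n + j.1)] x)) *
        ∏ j, g (Sum.inr j) (T^[a c (m + j.1)] x) ∂μ := by
    intro n _
    rw [integral_finsetSum_measure fun m _ => hI n m]
    refine Finset.sum_congr rfl fun m _ => ?_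
    rw [integral_map (el_meas hT r n m).aemeasurable hM.aestronglyMeasurable]
    congr 1
    funext x
    rw [Fintype.prod_sum_type]
    rfl
  rw [Finset.sum_congr rfl h1]
  simp only [av]
  rw [← Finset.mul_sum, ENNReal.toReal_mul, ENNReal.toReal_inv, ENNReal.toReal_natCast,
    Complex.real_smul, ← mul_assoc]
  push_cast
  ring

end Pool.Agent.PJN
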