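import Pool.Agent.PJN.Defs
import Pool.Agent.RHN.EHz

set_option autoImplicit false

/-!
# PJN/Mean: the mean ergodic theorem along a sequence with small exponential sums

PROOF. `RHN.herglotz` for `B`: `σ` finite on the circle with `∫ fourier n dσ = μ.real (B ∩ T^{-|n|} B)`.
For every sequence `t : ℕ → ℕ`: `∫ |av N (1_B ∘ T^{t n})|² dμ = N⁻² ∑_{n,m} μ.real (T^{-t n} B ∩ T^{-t m} B)
= N⁻² ∑_{n,m} ∫ fourier (t n - t m) dσ = ∫ |av N (fun n => fourier (t n) ξ)|² dσ(ξ)`.
If the exponential sums along `t` tend to `0` off the integers, the right side tends to `σ {0}` (dominated convergence;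
`fourier k ξ = e (α k)` for `ξ = ↑α`, and at `ξ = 0` all terms are `1`). This holds for `t = s` (`hs`). The means
`N⁻¹ ∑_{k<N} μ.real (B ∩ T^{-k} B)` tend to `σ {0}` (geometric series) and to `(μ.real B)²` (von Neumann, ergodicity:
`ergo`). So `σ {0} = (μ.real B)²`, and
`∫ ‖av - μ B‖² = ∫ ‖av‖² - 2 (μ B) (μ B) + (μ B)² → 0` (`∫ av N (1_B ∘ T^{s n}) dμ = μ B`).
-/

namespace Pool.Agent.PJN

open MeasureTheory Filter Topology Pool.Agent.VINO

section ergodic

variable {X : Type} [MeasurableSpace X] (μ : Measure X) [IsProbabilityMeasure μ] (T : X → X)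

private theorem inner_iter (hT : MeasurePreserving T μ μ) {A B : Set X} (hA : MeasurableSet A)
    (hB : MeasurableSet B) (k : ℕ) :
    inner ℝ (indicatorConstLp 2 hA (measure_ne_top μ A) (1 : ℝ))
      ((Lp.compMeasurePreserving T hT)^[k] (indicatorConstLp 2 hB (measure_ne_top μ B) (1 : ℝ))) =
      μ.real (A ∩ (T^[k]) ⁻¹' B) := by
  rw [Lp.compMeasurePreserving_iterate, L2.inner_indicatorConstLp_one]
  have h1 := Lp.coeFn_compMeasurePreserving (indicatorConstLp 2 hB (measure_ne_top μ B) (1 : ℝ))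
    (hT.iterate k)
  have h2 : (indicatorConstLp 2 hB (measure_ne_top μ B) (1 : ℝ) : X → ℝ) =ᵐ[μ]
      B.indicator fun _ => (1 : ℝ) := indicatorConstLp_coeFn
  have h3 := (hT.iterate k).quasiMeasurePreserving.ae_eq_comp h2
  have h4 : ∀ᵐ x ∂μ, (Lp.compMeasurePreserving T^[k] (hT.iterate k)
      (indicatorConstLp 2 hB (measure_ne_top μ B) (1 : ℝ)) : X → ℝ) x =
      ((T^[k]) ⁻¹' B).indicator (fun _ => (1 : ℝ)) x := by
    filter_upwards [h1, h3] with x hx1 hx3
    rw [hx1, hx3]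
    rfl
  rw [setIntegral_congr_ae hA (h4.mono fun x hx _ => hx),
    setIntegral_indicator ((hT.iterate k).measurable hB)]
  simp

private theorem ergo (hT : Ergodic T μ) {B : Set X} (hB : MeasurableSet B) :
    Tendsto (fun N : ℕ => (N : ℝ)⁻¹ * ∑ k ∈ Finset.range N, μ.real (B ∩ (T^[k]) ⁻¹' B)) atTop
      (𝓝 (μ.real B ^ 2)) := by
  have hmp : MeasurePreserving T μ μ := hT.toMeasurePreserving
  set U : Lp ℝ 2 μ →L[ℝ] Lp ℝ 2 μ :=
    (Lp.compMeasurePreservingₗᵢ ℝ T hmp : Lp ℝ 2 μ →ₗᵢ[ℝ] Lp ℝ 2 μ).toContinuousLinearMap with hU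
  have hU1 : ‖U‖ ≤ 1 := LinearIsometry.norm_toContinuousLinearMap_le _
  set f0 : Lp ℝ 2 μ := indicatorConstLp 2 hB (measure_ne_top μ B) (1 : ℝ) with hf0
  have hmean := U.tendsto_birkhoffAverage_orthogonalProjection hU1 f0
  set P := ((U.eqLocus (1 : Lp ℝ 2 μ →L[ℝ] Lp ℝ 2 μ)).orthogonalProjectionOnto f0) with hP
  have hfix : U (P : Lp ℝ 2 μ) = (P : Lp ℝ 2 μ) := P.2
  have hUT : (⇑U) = ⇑(Lp.compMeasurePreserving (E := ℝ) (p := 2) T hmp) := rfl
  have hinv : ((P : Lp ℝ 2 μ) : X → ℝ) ∘ T =ᵐ[μ] ((P : Lp ℝ 2 μ) : X → ℝ) := by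
    have h1 := Lp.coeFn_compMeasurePreserving (P : Lp ℝ 2 μ) hmp
    have h2 : Lp.compMeasurePreserving T hmp (P : Lp ℝ 2 μ) = (P : Lp ℝ 2 μ) := hfix
    rw [h2] at h1
    exact h1.symm
  obtain ⟨c, hc⟩ := hT.ae_eq_const_of_ae_eq_comp_ae (Lp.aestronglyMeasurable _) hinv
  have hgen : ∀ {A : Set X} (hA : MeasurableSet A),
      Tendsto (fun N : ℕ => (N : ℝ)⁻¹ * ∑ k ∈ Finset.range N, μ.real (A ∩ (T^[k]) ⁻¹' B)) atTop
      (𝓝 (c * μ.real A)) := by
    intro A hA
    set g : Lp ℝ 2 μ := indicatorConstLp 2 hA (measure_ne_top μ A) (1 : ℝ) with hg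
    have h1 : Tendsto (fun N : ℕ => inner ℝ g (birkhoffAverage ℝ U _root_.id N f0)) atTop
        (𝓝 (inner ℝ g (P : Lp ℝ 2 μ))) :=
      ((continuous_const.inner continuous_id).tendsto _).comp hmean
    have h2 : inner ℝ g (P : Lp ℝ 2 μ) = c * μ.real A := by
      rw [hg, L2.inner_indicatorConstLp_one]
      rw [setIntegral_congr_ae hA (hc.mono fun x hx _ => hx)]
      simp [mul_comm]
    have h3 : ∀ N : ℕ, inner ℝ g (birkhoffAverage ℝ U _root_.id N f0) =
        (N : ℝ)⁻¹ * ∑ k ∈ Finset.range N, μ.real (A ∩ (T^[k]) ⁻¹' B) := by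
      intro N
      rw [birkhoffAverage, birkhoffSum, inner_smul_right, inner_sum]
      congr 1
      refine Finset.sum_congr rfl fun k _ => ?_
      rw [hUT]
      exact inner_iter μ T hmp hA hB k
    rw [h2] at h1
    simpa only [h3] using h1
  have hone := hgen (A := Set.univ) MeasurableSet.univ
  have hc1 : c = μ.real B := by
    have h1 : Tendsto (fun N : ℕ => (N : ℝ)⁻¹ *
        ∑ k ∈ Finset.range N, μ.real (Set.univ ∩ (T^[k]) ⁻¹' B)) atTop (𝓝 (μ.real B)) := by
      refine tendsto_const_nhds.congr' ?_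
      filter_upwards [eventually_ge_atTop 1] with N hN
      have hN0 : (N : ℝ) ≠ 0 := by
        have : 1 ≤ (N : ℝ) := by exact_mod_cast hN
        linarith
      have h2 : ∀ k, μ.real (Set.univ ∩ (T^[k]) ⁻¹' B) = μ.real B := by
        intro k
        rw [Set.univ_inter, (hmp.iterate k).measureReal_preimage hB.nullMeasurableSet]
      simp only [h2]
      rw [Finset.sum_const, Finset.card_range, nsmul_eq_mul, ← mul_assoc, inv_mul_cancel₀ hN0,
        one_mul]
    have h3 := tendsto_nhds_unique hone h1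
    simpa using h3
  have h := hgen hB
  rw [hc1, ← sq] at h
  exact h

end ergodic

/-- the real averages of the indicator -/
private noncomputable def ar {X : Type} (T : X → X) (B : Set X) (t : ℕ → ℕ) (N : ℕ) (x : X) : ℝ :=
  (N : ℝ)⁻¹ * ∑ n ∈ Finset.Icc 1 N, B.indicator (fun _ => (1 : ℝ)) (T^[t n] x)

private theorem ar_eq {X : Type} (T : X → X) (B : Set X) (t : ℕ → ℕ) (N : ℕ) (x : X) :
    av N (fun n => B.indicator (fun _ => (1 : ℂ)) (T^[t n] x)) = ((ar T B t N x : ℝ) : ℂ) := by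
  unfold av ar
  push_cast
  congr 1
  refine Finset.sum_congr rfl fun n _ => ?_
  by_cases h : T^[t n] x ∈ B
  · rw [Set.indicator_of_mem h, Set.indicator_of_mem h]
    norm_num
  · rw [Set.indicator_of_notMem h, Set.indicator_of_notMem h]
    norm_num

private theorem av_bd {u : ℕ → ℂ} (hu : ∀ n, ‖u n‖ ≤ 1) (N : ℕ) : ‖av N u‖ ≤ 1 := by
  unfold av
  rw [norm_mul, norm_inv, Complex.norm_natCast]
  rcases Nat.eq_zero_or_pos N with rfl | hN
  · simp
  · have hN0 : (0 : ℝ) < N := by exact_mod_cast hN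
    rw [inv_mul_le_iff₀ hN0, mul_one]
    refine (norm_sum_le _ _).trans ((Finset.sum_le_sum fun n _ => hu n).trans (le_of_eq ?_))
    rw [Finset.sum_const, Nat.card_Icc]
    simp

private theorem corr_eq {X : Type} [MeasurableSpace X] (μ : Measure X) [IsProbabilityMeasure μ]
    (T : X → X) (hT : MeasurePreserving T μ μ) {B : Set X} (hB : MeasurableSet B) (a b : ℕ) :
    μ.real ((T^[a]) ⁻¹' B ∩ (T^[b]) ⁻¹' B) =
      μ.real (B ∩ (T^[((a : ℤ) - b).natAbs]) ⁻¹' B) := by
  have key : ∀ a b : ℕ, a ≤ b → μ.real ((T^[a]) ⁻¹' B ∩ (T^[b]) ⁻¹' B) =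
      μ.real (B ∩ (T^[b - a]) ⁻¹' B) := by
    intro a b hab
    rw [← (hT.iterate a).measureReal_preimage
      (hB.inter ((hT.iterate (b - a)).measurable hB)).nullMeasurableSet, Set.preimage_inter,
      ← Set.preimage_comp, ← Function.iterate_add]
    rw [Nat.sub_add_cancel hab]
  rcases le_total a b with h | h
  · rw [key a b h]
    congr 4
    omega
  · rw [Set.inter_comm, key b a h]
    congr 4
    omega

private theorem second {X : Type} [MeasurableSpace X] (μ : Measure X) [IsProbabilityMeasure μ]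
    (T : X → X) (hT : MeasurePreserving T μ μ) {B : Set X} (hB : MeasurableSet B)
    {σ : Measure UnitAddCircle} [IsFiniteMeasure σ] (hσ : ∀ n : ℤ,
      ∫ ξ, fourier n ξ ∂σ = ((μ.real (B ∩ (T^[n.natAbs]) ⁻¹' B) : ℝ) : ℂ)) (t : ℕ → ℕ) (N : ℕ) :
    ∫ x, ar T B t N x ^ 2 ∂μ =
      ∫ ξ : UnitAddCircle, ‖av N (fun n => fourier (t n : ℤ) ξ)‖ ^ 2 ∂σ := by
  have hl : ∫ x, ar T B t N x ^ 2 ∂μ = (N : ℝ)⁻¹ ^ 2 * ∑ n ∈ Finset.Icc 1 N,
      ∑ m ∈ Finset.Icc 1 N, μ.real (B ∩ (T^[((t n : ℤ) - t m).natAbs]) ⁻¹' B) := by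
    have h1 : ∀ x, ar T B t N x ^ 2 = (N : ℝ)⁻¹ ^ 2 * ∑ n ∈ Finset.Icc 1 N,
        ∑ m ∈ Finset.Icc 1 N,
          ((T^[t n]) ⁻¹' B ∩ (T^[t m]) ⁻¹' B).indicator (fun _ => (1 : ℝ)) x := by
      intro x
      unfold ar
      rw [mul_pow, sq (∑ n ∈ Finset.Icc 1 N, _), Finset.sum_mul_sum]
      congr 1
      refine Finset.sum_congr rfl fun n _ => Finset.sum_congr rfl fun m _ => ?_
      have h2 := Set.inter_indicator_mul (s := (T^[t n]) ⁻¹' B) (t := (T^[t m]) ⁻¹' B)
        (fun _ => (1 : ℝ)) (fun _ => (1 : ℝ)) x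
      simp only [mul_one] at h2
      rw [h2]
      rfl
    have hi : ∀ n m, Integrable (((T^[t n]) ⁻¹' B ∩ (T^[t m]) ⁻¹' B).indicator
        (fun _ => (1 : ℝ))) μ := fun n m =>
      (integrable_const (1 : ℝ)).indicator
        (((hT.iterate _).measurable hB).inter ((hT.iterate _).measurable hB))
    simp only [h1]
    rw [integral_const_mul, integral_finsetSum _ fun n _ => integrable_finsetSum _ fun m _ =>
      hi n m]
    congr 1
    refine Finset.sum_congr rfl fun n _ => ?_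
    rw [integral_finsetSum _ fun m _ => hi n m]
    refine Finset.sum_congr rfl fun m _ => ?_
    rw [integral_indicator_const _
      (((hT.iterate _).measurable hB).inter ((hT.iterate _).measurable hB)), smul_eq_mul, mul_one,
      corr_eq μ T hT hB]
  have hr : ((∫ ξ : UnitAddCircle, ‖av N (fun n => fourier (t n : ℤ) ξ)‖ ^ 2 ∂σ : ℝ) : ℂ) =
      (((N : ℝ)⁻¹ ^ 2 * ∑ n ∈ Finset.Icc 1 N, ∑ m ∈ Finset.Icc 1 N,
        μ.real (B ∩ (T^[((t n : ℤ) - t m).natAbs]) ⁻¹' B) : ℝ) : ℂ) := by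
    rw [← integral_complex_ofReal]
    have h1 : ∀ ξ : UnitAddCircle, ((‖av N (fun n => fourier (t n : ℤ) ξ)‖ ^ 2 : ℝ) : ℂ) =
        (N : ℂ)⁻¹ ^ 2 * ∑ n ∈ Finset.Icc 1 N, ∑ m ∈ Finset.Icc 1 N,
          fourier ((t n : ℤ) - t m) ξ := by
      intro ξ
      push_cast
      rw [← Complex.mul_conj']
      unfold av
      rw [map_mul, map_inv₀, Complex.conj_natCast, map_sum]
      rw [show (N : ℂ)⁻¹ * (∑ n ∈ Finset.Icc 1 N, fourier (t n : ℤ) ξ) * ((N : ℂ)⁻¹ *
        ∑ m ∈ Finset.Icc 1 N, (starRingEnd ℂ) (fourier (t m : ℤ) ξ)) = (N : ℂ)⁻¹ ^ 2 *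
        ((∑ n ∈ Finset.Icc 1 N, fourier (t n : ℤ) ξ) *
          ∑ m ∈ Finset.Icc 1 N, (starRingEnd ℂ) (fourier (t m : ℤ) ξ)) by ring,
        Finset.sum_mul_sum]
      congr 1
      refine Finset.sum_congr rfl fun n _ => Finset.sum_congr rfl fun m _ => ?_
      rw [sub_eq_add_neg, fourier_add, fourier_neg]
    have hi : ∀ n : ℤ, Integrable (fun ξ : UnitAddCircle => fourier n ξ) σ := fun n => by
      refine Integrable.of_bound (fourier n).continuous.aestronglyMeasurable 1
        (Eventually.of_forall fun ξ => ?_)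
      rw [fourier_apply, Circle.norm_coe]
    simp only [h1]
    rw [integral_const_mul, integral_finsetSum _ fun n _ => integrable_finsetSum _ fun m _ => hi _]
    push_cast
    congr 1
    refine Finset.sum_congr rfl fun n _ => ?_
    rw [integral_finsetSum _ fun m _ => hi _]
    refine Finset.sum_congr rfl fun m _ => ?_
    rw [hσ]
  rw [hl]
  exact_mod_cast hr.symm

private theorem fourier_e (α : ℝ) (k : ℕ) :
    fourier (k : ℤ) (α : UnitAddCircle) = Pool.Agent.VMV.e (α * k) := by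
  rw [fourier_coe_apply]
  unfold Pool.Agent.VMV.e
  congr 1
  push_cast
  ring

private theorem four_bd (k : ℤ) (ξ : UnitAddCircle) : ‖fourier k ξ‖ ≤ 1 := by
  rw [fourier_apply, Circle.norm_coe]

private theorem coe_ne {α : ℝ} (h : (α : UnitAddCircle) ≠ 0) (k : ℤ) : α ≠ k := by
  rintro rfl
  apply h
  rw [AddCircle.coe_eq_zero_iff]
  exact ⟨k, by simp⟩

private theorem geo (α : ℝ) (hα : ∀ k : ℤ, α ≠ k) :
    Tendsto (fun N : ℕ => (N : ℂ)⁻¹ * ∑ k ∈ Finset.range N, Pool.Agent.VMV.e (α * k)) atTop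
      (𝓝 0) := by
  have he : ∀ k : ℕ, Pool.Agent.VMV.e (α * k) = Pool.Agent.VMV.e α ^ k := by
    intro k
    unfold Pool.Agent.VMV.e
    rw [← Complex.exp_nat_mul]
    congr 1
    push_cast
    ring
  have h1 : Pool.Agent.VMV.e α ≠ 1 := by
    intro h
    unfold Pool.Agent.VMV.e at h
    rw [Complex.exp_eq_one_iff] at h
    obtain ⟨n, hn⟩ := h
    apply hα n
    have h2 : (2 * Real.pi * Complex.I : ℂ) ≠ 0 := Complex.two_pi_I_ne_zero
    have h3 : (2 * Real.pi * Complex.I : ℂ) * ((α : ℂ) - n) = 0 := by linear_combination hn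
    have h4 := sub_eq_zero.1 ((mul_eq_zero.1 h3).resolve_left h2)
    exact_mod_cast h4
  have hn1 : ‖Pool.Agent.VMV.e α‖ = 1 := by
    unfold Pool.Agent.VMV.e
    rw [show (2 * Real.pi * Complex.I * α : ℂ) = ((2 * Real.pi * α : ℝ) : ℂ) * Complex.I by
      push_cast; ring, Complex.norm_exp_ofReal_mul_I]
  rw [tendsto_zero_iff_norm_tendsto_zero]
  have hub : Tendsto (fun N : ℕ => (N : ℝ)⁻¹ * (2 / ‖Pool.Agent.VMV.e α - 1‖)) atTop (𝓝 0) := by
    have := (tendsto_inv_atTop_zero.comp (tendsto_natCast_atTop_atTop (R := ℝ))).mul_const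
      (2 / ‖Pool.Agent.VMV.e α - 1‖)
    rw [zero_mul] at this
    exact this
  refine squeeze_zero (fun N => norm_nonneg _) (fun N => ?_) hub
  simp only [he]
  rw [geom_sum_eq h1, norm_mul, norm_inv, Complex.norm_natCast, norm_div]
  have h5 : ‖Pool.Agent.VMV.e α ^ N - 1‖ ≤ 2 := by
    refine (norm_sub_le _ _).trans ?_
    rw [norm_pow, hn1, one_pow, norm_one]
    norm_num
  gcongr

private theorem ind_int (σ : Measure UnitAddCircle) [IsFiniteMeasure σ] :
    ∫ ξ, ({0} : Set UnitAddCircle).indicator (fun _ => (1 : ℝ)) ξ ∂σ = σ.real {0} := by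
  rw [integral_indicator_const _ (measurableSet_singleton _), smul_eq_mul, mul_one]

/-- the mass of the point `0` -/
private theorem mass {X : Type} [MeasurableSpace X] (μ : Measure X) [IsProbabilityMeasure μ]
    (T : X → X) (hT : Ergodic T μ) {B : Set X} (hB : MeasurableSet B)
    {σ : Measure UnitAddCircle} [IsFiniteMeasure σ] (hσ : ∀ n : ℤ,
      ∫ ξ, fourier n ξ ∂σ = ((μ.real (B ∩ (T^[n.natAbs]) ⁻¹' B) : ℝ) : ℂ)) :
    σ.real {0} = μ.real B ^ 2 := by
  have hi : ∀ n : ℤ, Integrable (fun ξ : UnitAddCircle => fourier n ξ) σ := fun n =>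
    Integrable.of_bound (fourier n).continuous.aestronglyMeasurable 1
      (Eventually.of_forall fun ξ => four_bd n ξ)
  have h1 : Tendsto (fun N : ℕ => ∫ ξ : UnitAddCircle, (N : ℂ)⁻¹ *
      ∑ k ∈ Finset.range N, fourier (k : ℤ) ξ ∂σ) atTop
      (𝓝 (∫ ξ, ({0} : Set UnitAddCircle).indicator (fun _ => (1 : ℂ)) ξ ∂σ)) := by
    refine tendsto_integral_of_dominated_convergence (fun _ => (1 : ℝ)) (fun N => ?_)
      (integrable_const _) (fun N => Eventually.of_forall fun ξ => ?_)
      (Eventually.of_forall fun ξ => ?_)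
    · exact (Continuous.aestronglyMeasurable (by fun_prop))
    · rw [norm_mul, norm_inv, Complex.norm_natCast]
      rcases Nat.eq_zero_or_pos N with rfl | hN
      · simp
      · have hN0 : (0 : ℝ) < N := by exact_mod_cast hN
        rw [inv_mul_le_iff₀ hN0, mul_one]
        refine (norm_sum_le _ _).trans ((Finset.sum_le_sum fun n _ => four_bd _ _).trans
          (le_of_eq ?_))
        rw [Finset.sum_const, Finset.card_range]
        simp
    · by_cases hξ : ξ = 0
      · subst hξ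
        rw [Set.indicator_of_mem (Set.mem_singleton _)]
        refine tendsto_const_nhds.congr' ?_
        filter_upwards [eventually_ge_atTop 1] with N hN
        have hN0 : (N : ℂ) ≠ 0 := by exact_mod_cast (show N ≠ 0 by omega)
        simp only [fourier_eval_zero]
        rw [Finset.sum_const, Finset.card_range, nsmul_eq_mul, mul_one, inv_mul_cancel₀ hN0]
      · rw [Set.indicator_of_notMem (by simpa using hξ)]
        obtain ⟨α, rfl⟩ := QuotientAddGroup.mk_surjective ξ
        have h2 := geo α (coe_ne hξ)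
        refine h2.congr fun N => ?_
        congr 1
        refine Finset.sum_congr rfl fun k _ => ?_
        exact (fourier_e α k).symm
  have h2 : ∀ N : ℕ, ∫ ξ : UnitAddCircle, (N : ℂ)⁻¹ * ∑ k ∈ Finset.range N, fourier (k : ℤ) ξ ∂σ =
      (((N : ℝ)⁻¹ * ∑ k ∈ Finset.range N, μ.real (B ∩ (T^[k]) ⁻¹' B) : ℝ) : ℂ) := by
    intro N
    rw [integral_const_mul, integral_finsetSum _ fun k _ => hi _]
    push_cast
    congr 1
    refine Finset.sum_congr rfl fun k _ => ?_
    rw [hσ]
    rfl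
  simp only [h2] at h1
  have h3 : ∫ ξ, ({0} : Set UnitAddCircle).indicator (fun _ => (1 : ℂ)) ξ ∂σ =
      ((σ.real {0} : ℝ) : ℂ) := by
    rw [integral_indicator_const _ (measurableSet_singleton _)]
    simp
  rw [h3] at h1
  have h4 := (Complex.continuous_re.tendsto _).comp h1
  simp only [Function.comp_def, Complex.ofReal_re] at h4
  exact tendsto_nhds_unique h4 (ergo μ T hT hB)

theorem mean_lim {X : Type} [MeasurableSpace X] (μ : Measure X) [IsProbabilityMeasure μ] (T : X → X)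
    (hT : Ergodic T μ) (s : ℕ → ℕ)
    (hs : ∀ α : ℝ, (∀ k : ℤ, α ≠ k) →
      Tendsto (fun N => av N fun n => Pool.Agent.VMV.e (α * s n)) atTop (𝓝 0))
    (B : Set X) (hB : MeasurableSet B) :
    Tendsto (fun N => ∫ x, ‖av N (fun n => B.indicator (fun _ => (1 : ℂ)) (T^[s n] x)) -
      (μ.real B : ℂ)‖ ^ 2 ∂μ) atTop (𝓝 0) := by
  have hmp : MeasurePreserving T μ μ := hT.toMeasurePreserving
  obtain ⟨σ, hσf, hσ⟩ := Pool.Agent.RHN.herglotz μ T hmp B hB
  have hmass := mass μ T hT hB hσ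
  -- the second moments
  have h1 : Tendsto (fun N : ℕ => ∫ x, ar T B s N x ^ 2 ∂μ) atTop (𝓝 (μ.real B ^ 2)) := by
    rw [← hmass, ← ind_int σ]
    simp only [second μ T hmp hB hσ s]
    refine tendsto_integral_of_dominated_convergence (fun _ => (1 : ℝ)) (fun N => ?_)
      (integrable_const _) (fun N => Eventually.of_forall fun ξ => ?_)
      (Eventually.of_forall fun ξ => ?_)
    · unfold av
      exact (Continuous.aestronglyMeasurable (by fun_prop))
    · rw [Real.norm_of_nonneg (by positivity)]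
      exact pow_le_one₀ (norm_nonneg _) (av_bd (fun n => four_bd _ _) N)
    · by_cases hξ : ξ = 0
      · subst hξ
        rw [Set.indicator_of_mem (Set.mem_singleton _)]
        refine tendsto_const_nhds.congr' ?_
        filter_upwards [eventually_ge_atTop 1] with N hN
        have hN0 : (N : ℂ) ≠ 0 := by exact_mod_cast (show N ≠ 0 by omega)
        simp only [fourier_eval_zero]
        unfold av
        rw [Finset.sum_const, Nat.card_Icc, nsmul_eq_mul, mul_one, Nat.add_sub_cancel,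
          inv_mul_cancel₀ hN0]
        norm_num
      · rw [Set.indicator_of_notMem (by simpa using hξ)]
        obtain ⟨α, rfl⟩ := QuotientAddGroup.mk_surjective ξ
        have h2 := (hs α (coe_ne hξ)).norm.pow 2
        rw [norm_zero, zero_pow two_ne_zero] at h2
        refine h2.congr fun N => ?_
        congr 2
        unfold av
        congr 1
        refine Finset.sum_congr rfl fun k _ => ?_
        exact (fourier_e α (s k)).symm
  -- the first moments
  have hind : ∀ n, Integrable (fun x => B.indicator (fun _ => (1 : ℝ)) (T^[s n] x)) μ := fun n => by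
    have h3 : (fun x => B.indicator (fun _ => (1 : ℝ)) (T^[s n] x)) =
        ((T^[s n]) ⁻¹' B).indicator fun _ => (1 : ℝ) := rfl
    rw [h3]
    exact (integrable_const (1 : ℝ)).indicator ((hmp.iterate _).measurable hB)
  have hfirst : ∀ N : ℕ, 1 ≤ N → ∫ x, ar T B s N x ∂μ = μ.real B := by
    intro N hN
    have hN0 : (N : ℝ) ≠ 0 := by
      have : 1 ≤ (N : ℝ) := by exact_mod_cast hN
      linarith
    unfold ar
    rw [integral_const_mul, integral_finsetSum _ fun n _ => hind n]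
    have h4 : ∀ n, ∫ x, B.indicator (fun _ => (1 : ℝ)) (T^[s n] x) ∂μ = μ.real B := by
      intro n
      have h3 : (fun x => B.indicator (fun _ => (1 : ℝ)) (T^[s n] x)) =
          ((T^[s n]) ⁻¹' B).indicator fun _ => (1 : ℝ) := rfl
      rw [h3, integral_indicator_const _ ((hmp.iterate _).measurable hB), smul_eq_mul, mul_one,
        (hmp.iterate _).measureReal_preimage hB.nullMeasurableSet]
    simp only [h4]
    rw [Finset.sum_const, Nat.card_Icc, nsmul_eq_mul, Nat.add_sub_cancel, ← mul_assoc,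
      inv_mul_cancel₀ hN0, one_mul]
  have hari : ∀ N, Integrable (fun x => ar T B s N x) μ := fun N => by
    unfold ar
    exact (integrable_finsetSum _ fun n _ => hind n).const_mul _
  have hari2 : ∀ N, Integrable (fun x => ar T B s N x ^ 2) μ := fun N => by
    refine Integrable.of_bound ((hari N).aestronglyMeasurable.pow 2) 1
      (Eventually.of_forall fun x => ?_)
    have h5 : ‖av N (fun n => B.indicator (fun _ => (1 : ℂ)) (T^[s n] x))‖ ≤ 1 := by
      refine av_bd (fun n => ?_) N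
      by_cases h : T^[s n] x ∈ B
      · rw [Set.indicator_of_mem h]
        simp
      · rw [Set.indicator_of_notMem h]
        simp
    rw [ar_eq, Complex.norm_real] at h5
    rw [norm_pow]
    exact pow_le_one₀ (norm_nonneg _) h5
  have hfin : Tendsto (fun N : ℕ => (∫ x, ar T B s N x ^ 2 ∂μ) - μ.real B ^ 2) atTop (𝓝 0) := by
    have := h1.sub_const (μ.real B ^ 2)
    rwa [sub_self] at this
  refine hfin.congr' ?_
  filter_upwards [eventually_ge_atTop 1] with N hN
  have h6 : ∀ x, ‖av N (fun n => B.indicator (fun _ => (1 : ℂ)) (T^[s n] x)) -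
      (μ.real B : ℂ)‖ ^ 2 = ar T B s N x ^ 2 - 2 * μ.real B * ar T B s N x + μ.real B ^ 2 := by
    intro x
    rw [ar_eq, ← Complex.ofReal_sub, Complex.norm_real, Real.norm_eq_abs, sq_abs]
    ring
  simp only [h6]
  have i1 : Integrable (fun x => 2 * μ.real B * ar T B s N x) μ := (hari N).const_mul _
  have i2 : Integrable (fun x => ar T B s N x ^ 2 - 2 * μ.real B * ar T B s N x) μ :=
    (hari2 N).sub i1
  rw [integral_add i2 (integrable_const _), integral_sub (hari2 N) i1, integral_const_mul,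
    hfirst N hN]
  simp
  ring

end Pool.Agent.PJN
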